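import Pool.Agent.TH95.NR.Defs

/-!
# The wreath product trick (Kaloujnine-Krasner cocycle)
-/

set_option autoImplicit false

namespace Pool.Agent.TH95.NR

open Pool.Agent.TH54.BU

namespace J6

section gen

variable {G H : Type*} [Group G] [Group H]

theorem dd_map (f : G →* H) (P : Subgroup G) : (dd P).map f = dd (P.map f) := by
  simp only [dd, Subgroup.map_commutator]

theorem dd_mono {P Q : Subgroup G} (h : P ≤ Q) : dd P ≤ dd Q :=
  Subgroup.commutator_mono (Subgroup.commutator_mono h h) (Subgroup.commutator_mono h h)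

theorem dd_le (P : Subgroup G) : dd P ≤ P :=
  (Subgroup.commutator_mono (Subgroup.commutator_le_self P)
    (Subgroup.commutator_le_self P)).trans (Subgroup.commutator_le_self P)

theorem dd_normal (P : Subgroup G) [P.Normal] : (dd P).Normal := by
  unfold dd
  infer_instance

theorem dd_of_mul_on {P : Subgroup G} {K : Subgroup H} (e : G → H)
    (he : ∀ x ∈ P, ∀ y ∈ P, e (x * y) = e x * e y) (hK : ∀ x ∈ P, e x ∈ K) {x : G}
    (hx : x ∈ dd P) : e x ∈ dd K := by
  let e' : P →* H := MonoidHom.mk' (fun y => e y) (fun a b => he a a.2 b b.2)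
  have h1 : dd P = (dd (⊤ : Subgroup P)).map P.subtype := by
    rw [dd_map, ← MonoidHom.range_eq_map, Subgroup.range_subtype]
  rw [h1] at hx
  obtain ⟨y, hy, rfl⟩ := hx
  have h2 : e' y ∈ dd ((⊤ : Subgroup P).map e') := by
    rw [← dd_map]; exact Subgroup.mem_map_of_mem e' hy
  have h3 : (⊤ : Subgroup P).map e' ≤ K := by
    rintro _ ⟨z, -, rfl⟩
    exact hK z z.2
  exact dd_mono h3 h2

/-- the shift action -/
def sh (L M : Type*) [Group L] [Group M] : L →* MulAut (L → M) where
  toFun l :=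
    { toFun := fun f c => f (l⁻¹ * c)
      invFun := fun f c => f (l * c)
      left_inv := fun f => by funext c; simp
      right_inv := fun f => by funext c; simp
      map_mul' := fun _ _ => rfl }
  map_one' := by
    ext f c
    simp
  map_mul' a b := by
    ext f c
    simp [mul_assoc]

theorem sh_apply (L M : Type*) [Group L] [Group M] (l : L) (f : L → M) (c : L) :
    sh L M l f c = f (l⁻¹ * c) := rfl

end gen

section main

variable (p : ℕ) (L : Type) [Group L] (ι : Q3 p →* L) (t : L)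

/-- the value of the cocycle -/
noncomputable def val (i : Fin 3) (c : Q3 p) : FreeGroup (Fin 3) :=
  (Quotient.out c)⁻¹ * FreeGroup.of i * Quotient.out ((gen p i)⁻¹ * c)

theorem mk_out (c : Q3 p) : ((Quotient.out c : FreeGroup (Fin 3)) : Q3 p) = c :=
  Quotient.out_eq' c

theorem val_mem (i : Fin 3) (c : Q3 p) : val p i c ∈ powSub (FreeGroup (Fin 3)) p := by
  rw [← QuotientGroup.eq_one_iff]
  unfold val
  rw [QuotientGroup.mk_mul, QuotientGroup.mk_mul, QuotientGroup.mk_inv, mk_out, mk_out]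
  unfold gen
  group

open Classical in
/-- the function of the element `a` -/
noncomputable def fa (y : L) : FreeGroup (Fin 3) :=
  if h : ∃ (i : Fin 3) (c : Q3 p), y = (t ^ (i : ℕ))⁻¹ * ι c then
    val p h.choose h.choose_spec.choose else 1

theorem fa_mem (y : L) : fa p L ι t y ∈ powSub (FreeGroup (Fin 3)) p := by
  unfold fa
  split_ifs with h
  · exact val_mem _ _ _
  · exact one_mem _

theorem fa_eq (hι : Function.Injective ι) (ht : t ∉ ι.range) (ht2 : t ^ 2 ∉ ι.range)
    (i : Fin 3) (c : Q3 p) : fa p L ι t ((t ^ (i : ℕ))⁻¹ * ι c) = val p i c := by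
  have hex : ∃ (j : Fin 3) (d : Q3 p), (t ^ (i : ℕ))⁻¹ * ι c = (t ^ (j : ℕ))⁻¹ * ι d :=
    ⟨i, c, rfl⟩
  unfold fa
  rw [dif_pos hex]
  have h := hex.choose_spec.choose_spec
  generalize hex.choose_spec.choose = d at h ⊢
  revert d
  generalize hex.choose = j
  intro d h
  have h' : t ^ (j : ℕ) * (t ^ (i : ℕ))⁻¹ = ι (d * c⁻¹) := by
    rw [map_mul, map_inv, eq_mul_inv_iff_mul_eq, mul_assoc, h, mul_inv_cancel_left]
  have hij : i = j := by
    by_contra hne
    have ht1 : t⁻¹ ∉ ι.range := fun hh => ht (by simpa using inv_mem hh)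
    have ht3 : (t ^ 2)⁻¹ ∉ ι.range := fun hh => ht2 (by simpa using inv_mem hh)
    have hr : t ^ (j : ℕ) * (t ^ (i : ℕ))⁻¹ ∈ ι.range := ⟨_, h'.symm⟩
    fin_cases i <;> fin_cases j
    · exact hne rfl
    · exact ht (by simpa using hr)
    · exact ht2 (by simpa using hr)
    · exact ht1 (by simpa using hr)
    · exact hne rfl
    · apply ht
      have e : t ^ 2 * t⁻¹ = t := by rw [sq, mul_inv_cancel_right]
      simpa [e] using hr
    · exact ht3 (by simpa using hr)
    · apply ht1
      have e : t * (t ^ 2)⁻¹ = t⁻¹ := by rw [sq, mul_inv_rev, mul_inv_cancel_left]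
      simpa [e] using hr
    · exact hne rfl
  subst hij
  have : d = c := by
    apply hι
    exact (mul_left_cancel h).symm
  rw [this]

/-- the element `a` of the wreath product -/
noncomputable def ea : SemidirectProduct (L → FreeGroup (Fin 3)) L (sh L (FreeGroup (Fin 3))) :=
  ⟨fa p L ι t, ι (gen p 0)⟩

/-- the homomorphism of the free group of rank two -/
noncomputable def Psi : FreeGroup (Fin 2) →*
    SemidirectProduct (L → FreeGroup (Fin 3)) L (sh L (FreeGroup (Fin 3))) :=
  FreeGroup.lift ![ea p L ι t, SemidirectProduct.inr t]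

/-- the homomorphism of the free groups -/
def th : FreeGroup (Fin 3) →* FreeGroup (Fin 2) :=
  FreeGroup.lift (fun i : Fin 3 => (FreeGroup.of (1 : Fin 2)) ^ (i : ℕ) *
      FreeGroup.of 0 * ((FreeGroup.of (1 : Fin 2)) ^ (i : ℕ))⁻¹)

theorem Psi_left_mem (v : FreeGroup (Fin 2)) (c : L) :
    (Psi p L ι t v).left c ∈ powSub (FreeGroup (Fin 3)) p := by
  revert c
  induction v using FreeGroup.induction_on with
  | C1 => intro c; rw [map_one]; exact one_mem _
  | of i =>
    intro c
    fin_cases i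
    · simp only [Psi, FreeGroup.lift_apply_of]
      exact fa_mem p L ι t c
    · simp only [Psi, FreeGroup.lift_apply_of]
      exact one_mem _
  | inv_of i ih =>
    intro c
    rw [map_inv, SemidirectProduct.inv_left, sh_apply, Pi.inv_apply]
    exact inv_mem (ih _)
  | mul x y hx hy =>
    intro c
    rw [map_mul, SemidirectProduct.mul_left, Pi.mul_apply, sh_apply]
    exact mul_mem (hx _) (hy _)

theorem Theta (hι : Function.Injective ι)
    (h1 : ι (gen p 1) = t * ι (gen p 0) * t⁻¹) (h2 : ι (gen p 2) = t * ι (gen p 1) * t⁻¹)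
    (ht : t ∉ ι.range) (ht2 : t ^ 2 ∉ ι.range) (w : FreeGroup (Fin 3)) :
    (Psi p L ι t (th w)).right = ι (w : Q3 p) ∧
    ∀ c : Q3 p, (Psi p L ι t (th w)).left (ι c) =
      (Quotient.out c)⁻¹ * w * Quotient.out ((w : Q3 p)⁻¹ * c) := by
  have hT : ∀ i : ℕ, Psi p L ι t (FreeGroup.of 1) ^ i = SemidirectProduct.inr (t ^ i) := by
    intro i
    rw [map_pow]
    congr 1
    simp [Psi]
  have ha : Psi p L ι t (FreeGroup.of 0) = ea p L ι t := by simp [Psi]
  have hgen : ∀ i : Fin 3, ι (gen p i) = t ^ (i : ℕ) * ι (gen p 0) * (t ^ (i : ℕ))⁻¹ := by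
    intro i
    fin_cases i
    · simp
    · simpa using h1
    · show ι (gen p 2) = t ^ 2 * ι (gen p 0) * (t ^ 2)⁻¹
      rw [h2, h1, sq, mul_inv_rev]
      simp only [mul_assoc]
  induction w using FreeGroup.induction_on with
  | C1 => 
    refine ⟨by simp, fun c => ?_⟩
    simp
  | of i =>
    have e : Psi p L ι t (th (FreeGroup.of i)) =
        SemidirectProduct.inr (t ^ (i : ℕ)) * ea p L ι t *
          (SemidirectProduct.inr (t ^ (i : ℕ)))⁻¹ := by
      rw [th, FreeGroup.lift_apply_of, map_mul, map_mul, map_inv, map_pow, hT, ha]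
    rw [e]
    refine ⟨?_, fun c => ?_⟩
    · simp only [SemidirectProduct.mul_right, SemidirectProduct.right_inr,
        SemidirectProduct.inv_right]
      exact (hgen i).symm
    · have e2 : (SemidirectProduct.inr (t ^ (i : ℕ)) * ea p L ι t *
          (SemidirectProduct.inr (t ^ (i : ℕ)))⁻¹ :
          SemidirectProduct (L → FreeGroup (Fin 3)) L (sh L (FreeGroup (Fin 3)))).left =
          sh L (FreeGroup (Fin 3)) (t ^ (i : ℕ)) (fa p L ι t) := by
        simp only [SemidirectProduct.mul_left, SemidirectProduct.left_inr,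
          SemidirectProduct.inv_left, SemidirectProduct.right_inr, inv_one, map_one, mul_one,
          one_mul]
        rfl
      rw [e2, sh_apply, fa_eq p L ι t hι ht ht2]
      rfl
  | inv_of i ih =>
    obtain ⟨ih1, ih2⟩ := ih
    refine ⟨?_, fun c => ?_⟩
    · rw [map_inv, map_inv, SemidirectProduct.inv_right, ih1, ← map_inv]
      rfl
    · rw [map_inv, map_inv, SemidirectProduct.inv_left, sh_apply, Pi.inv_apply, inv_inv, ih1,
        ← map_mul, ih2]
      rw [QuotientGroup.mk_inv, inv_inv, inv_mul_cancel_left]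
      group
  | mul x y hx hy =>
    obtain ⟨hx1, hx2⟩ := hx
    obtain ⟨hy1, hy2⟩ := hy
    refine ⟨?_, fun c => ?_⟩
    · rw [map_mul, map_mul, SemidirectProduct.mul_right, hx1, hy1, ← map_mul]
      rfl
    · rw [map_mul, map_mul, SemidirectProduct.mul_left, Pi.mul_apply, sh_apply, hx1, hx2,
        ← map_inv, ← map_mul, hy2, QuotientGroup.mk_mul, mul_inv_rev, mul_assoc (y : Q3 p)⁻¹]
      group

end main

end J6

open J6 in
theorem wreath_trick (p : ℕ) (L : Type) [Group L] (ι : Q3 p →* L) (t : L)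
    (hι : Function.Injective ι) (hL : ∀ g : L, g ^ p = 1)
    (h1 : ι (gen p 1) = t * ι (gen p 0) * t⁻¹) (h2 : ι (gen p 2) = t * ι (gen p 1) * t⁻¹)
    (ht : t ∉ ι.range) (ht2 : t ^ 2 ∉ ι.range) (w : FreeGroup (Fin 3))
    (hw : FreeGroup.lift (fun i : Fin 3 => (FreeGroup.of (1 : Fin 2)) ^ (i : ℕ) *
      FreeGroup.of 0 * ((FreeGroup.of (1 : Fin 2)) ^ (i : ℕ))⁻¹) w ∈
      dd (powSub (FreeGroup (Fin 2)) p)) :
    w ∈ dd (powSub (FreeGroup (Fin 3)) p) := by
  have hw' : th w ∈ dd (powSub (FreeGroup (Fin 2)) p) := hw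
  obtain ⟨hr, hl⟩ := Theta p L ι t hι h1 h2 ht ht2 w
  have hker : powSub (FreeGroup (Fin 2)) p ≤
      (SemidirectProduct.rightHom.comp (Psi p L ι t)).ker := by
    apply Subgroup.normalClosure_le_normal
    rintro _ ⟨v, rfl⟩
    show SemidirectProduct.rightHom.comp (Psi p L ι t) (v ^ p) = 1
    rw [map_pow, hL]
  have hright : ∀ v ∈ powSub (FreeGroup (Fin 2)) p, (Psi p L ι t v).right = 1 :=
    fun v hv => hker hv
  have hwr : (Psi p L ι t (th w)).right = 1 := hright _ (dd_le _ hw')
  have hwb : (w : Q3 p) = 1 := by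
    apply hι
    rw [← hr, hwr, map_one]
  have hmem : (Psi p L ι t (th w)).left (ι 1) ∈ dd (powSub (FreeGroup (Fin 3)) p) := by
    refine dd_of_mul_on (P := powSub (FreeGroup (Fin 2)) p)
      (fun v => (Psi p L ι t v).left (ι 1)) ?_ ?_ hw'
    · intro x hx y hy
      show (Psi p L ι t (x * y)).left (ι 1) = _
      rw [map_mul, SemidirectProduct.mul_left, Pi.mul_apply, hright x hx,
        map_one (sh L (FreeGroup (Fin 3))), MulAut.one_apply]
    · intro x _
      exact Psi_left_mem p L ι t x _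
  rw [hl, hwb, inv_one, one_mul] at hmem
  have hn := dd_normal (powSub (FreeGroup (Fin 3)) p)
  have := hn.conj_mem _ hmem (Quotient.out (1 : Q3 p))
  simpa [mul_assoc] using this

end Pool.Agent.TH95.NR
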