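import Pool.Agent.TH95.NR.Defs

/-!
# A finite 2-group, not metabelian, all whose 3-generator subgroups are metabelian

Matrices of size 8 over `ZMod 2`, with a filtration `F k` by degree.
-/

set_option autoImplicit false

namespace Pool.Agent.TH95.NR

open Pool.Agent.TH54.BU

namespace J7

open scoped commutatorElement

/-- the matrix ring -/
abbrev R : Type := Matrix (Fin 8) (Fin 8) (ZMod 2)

/-- the degrees of the indices -/
def deg : Fin 8 → ℕ := ![0, 1, 2, 2, 2, 3, 3, 4]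

/-- the filtration -/
def F (k : ℕ) : AddSubgroup R where
  carrier := {N | ∀ i j, deg j < deg i + k → N i j = 0}
  zero_mem' := by intro i j _; rfl
  add_mem' := by
    intro a b ha hb i j h
    rw [Matrix.add_apply, ha i j h, hb i j h, add_zero]
  neg_mem' := by
    intro a ha i j h
    rw [Matrix.neg_apply, ha i j h, neg_zero]

lemma F_mul {k l : ℕ} {a b : R} (ha : a ∈ F k) (hb : b ∈ F l) : a * b ∈ F (k + l) := by
  intro i j h
  rw [Matrix.mul_apply]
  apply Finset.sum_eq_zero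
  intro x _
  by_cases hx : deg x < deg i + k
  · rw [ha i x hx, zero_mul]
  · rw [hb x j (by omega), mul_zero]

lemma F_anti {k l : ℕ} (h : k ≤ l) {a : R} (ha : a ∈ F l) : a ∈ F k := by
  intro i j hij
  exact ha i j (by omega)

lemma deg_le (i : Fin 8) : deg i ≤ 4 := by
  fin_cases i <;> simp [deg]

lemma F_five {a : R} (ha : a ∈ F 5) : a = 0 := by
  ext i j
  exact ha i j (by have := deg_le j; omega)

/-- the general element of degree one -/
def X (v : Fin 4 → ZMod 2) : R :=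
  !![0, v 0, 0, 0, 0, 0, 0, 0;
     0, 0, v 1, v 2, v 3, 0, 0, 0;
     0, 0, 0, 0, 0, v 2, 0, 0;
     0, 0, 0, 0, 0, v 1, 0, 0;
     0, 0, 0, 0, 0, 0, v 1, 0;
     0, 0, 0, 0, 0, 0, 0, v 3;
     0, 0, 0, 0, 0, 0, 0, v 2;
     0, 0, 0, 0, 0, 0, 0, 0]

lemma X_add (v w : Fin 4 → ZMod 2) : X (v + w) = X v + X w := by
  ext i j
  fin_cases i <;> fin_cases j <;> simp [X]

lemma X_zero : X 0 = 0 := by
  ext i j
  fin_cases i <;> fin_cases j <;> simp [X]

lemma X_mem (v : Fin 4 → ZMod 2) : X v ∈ F 1 := by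
  intro i j
  fin_cases i <;> fin_cases j <;> simp [X, deg]

lemma one_ring : (2 : ZMod 2) = 0 := by decide

lemma word (a b c d : Fin 4 → ZMod 2) : (X a * X b * X c * X d) 0 7 =
    a 0 * (b 1 * c 2 * d 3 + b 2 * c 1 * d 3 + b 3 * c 1 * d 2) := by
  have h1 : (X a * X b) 0 = ![0, 0, a 0 * b 1, a 0 * b 2, a 0 * b 3, 0, 0, 0] := by
    funext j
    fin_cases j <;> simp [X, Matrix.mul_apply, Fin.sum_univ_succ]
  have h2 : (X a * X b * X c) 0 = ![0, 0, 0, 0, 0, a 0 * b 1 * c 2 + a 0 * b 2 * c 1,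
      a 0 * b 3 * c 1, 0] := by
    funext j
    rw [Matrix.mul_apply]
    simp only [h1]
    fin_cases j <;> simp [X, Fin.sum_univ_succ]
  rw [Matrix.mul_apply]
  simp only [h2]
  simp [X, Fin.sum_univ_succ]
  ring

lemma T_entry (a b c d : Fin 4 → ZMod 2) :
    (((X a * X b - X b * X a) * (X c * X d - X d * X c) -
      (X c * X d - X d * X c) * (X a * X b - X b * X a) : R)) 0 7 =
      (Matrix.of ![a, b, c, d]).det := by
  have e : (((X a * X b - X b * X a) * (X c * X d - X d * X c) -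
      (X c * X d - X d * X c) * (X a * X b - X b * X a) : R)) =
      X a * X b * X c * X d - X a * X b * X d * X c - X b * X a * X c * X d
      + X b * X a * X d * X c - X c * X d * X a * X b + X c * X d * X b * X a
      + X d * X c * X a * X b - X d * X c * X b * X a := by noncomm_ring
  rw [e]
  simp only [Matrix.add_apply, Matrix.sub_apply, word]
  simp [Matrix.det_succ_row_zero, Fin.sum_univ_succ, Fin.succAbove]
  linear_combination ((-1) * (a 0 * b 1 * c 3 * d 2) + (-1) * (a 0 * b 2 * c 3 * d 1) + (-1) * (a 0 * b 3 * c 2 * d 1) + (-1) * (a 1 * b 0 * c 2 * d 3) + (-1) * (a 1 * b 2 * c 0 * d 3) + (-1) * (a 1 * b 3 * c 0 * d 2) + (-1) * (a 2 * b 0 * c 1 * d 3) + (-1) * (a 2 * b 1 * c 3 * d 0) + (-1) * (a 2 * b 3 * c 0 * d 1) + (-1) * (a 3 * b 0 * c 1 * d 2) + (-1) * (a 3 * b 1 * c 2 * d 0) + (-1) * (a 3 * b 2 * c 1 * d 0)) * one_ring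

/-- units congruent to `1` modulo `F 1` -/
lemma inv_mem_F {u : Rˣ} (hu : (u : R) - 1 ∈ F 1) : ((u⁻¹ : Rˣ) : R) - 1 ∈ F 1 := by
  have key : ∀ n : ℕ, ((u ^ n : Rˣ) : R) - 1 ∈ F 1 := by
    intro n
    induction n with
    | zero => simp
    | succ n ih =>
      have e : ((u ^ (n + 1) : Rˣ) : R) - 1 =
          (((u ^ n : Rˣ) : R) - 1) * ((u : R) - 1) + (((u ^ n : Rˣ) : R) - 1) + ((u : R) - 1) := by
        rw [pow_succ, Units.val_mul]; noncomm_ring
      rw [e]
      exact (F 1).add_mem ((F 1).add_mem (F_anti (by norm_num) (F_mul ih hu)) ih) hu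
  obtain ⟨n, hn, h1⟩ := (isOfFinOrder_of_finite u).exists_pow_eq_one
  have : u⁻¹ = u ^ (n - 1) := by
    rw [inv_eq_iff_mul_eq_one, ← pow_succ', Nat.sub_add_cancel hn, h1]
  rw [this]
  exact key _

lemma mul_mem_F {u v : Rˣ} (hu : (u : R) - 1 ∈ F 1) (hv : (v : R) - 1 ∈ F 1) :
    ((u * v : Rˣ) : R) - 1 ∈ F 1 := by
  have e : ((u * v : Rˣ) : R) - 1 =
      ((u : R) - 1) * ((v : R) - 1) + ((u : R) - 1) + ((v : R) - 1) := by
    rw [Units.val_mul]; noncomm_ring
  rw [e]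
  exact (F 1).add_mem ((F 1).add_mem (F_anti (by norm_num) (F_mul hu hv)) hu) hv

lemma comm_ring {A : Type*} [Ring A] (u v : Aˣ) :
    ((⁅u, v⁆ : Aˣ) : A) - 1 -
      (((u : A) - 1) * ((v : A) - 1) - ((v : A) - 1) * ((u : A) - 1)) =
      (((u : A) - 1) * ((v : A) - 1) - ((v : A) - 1) * ((u : A) - 1)) *
        (((u⁻¹ * v⁻¹ : Aˣ) : A) - 1) := by
  have h1 : ((v : A) * (u : A)) * ((u⁻¹ * v⁻¹ : Aˣ) : A) = 1 := by
    rw [← Units.val_mul, ← Units.val_mul]
    have : v * u * (u⁻¹ * v⁻¹) = 1 := by group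
    rw [this, Units.val_one]
  have h2 : ((⁅u, v⁆ : Aˣ) : A) = (u : A) * (v : A) * ((u⁻¹ * v⁻¹ : Aˣ) : A) := by
    have : ⁅u, v⁆ = u * v * (u⁻¹ * v⁻¹) := by rw [commutatorElement_def]; group
    rw [this, Units.val_mul, Units.val_mul]
  have e1 : ((u : A) - 1) * ((v : A) - 1) - ((v : A) - 1) * ((u : A) - 1) =
      (u : A) * v - v * u := by noncomm_ring
  rw [e1, mul_sub, mul_one, sub_mul, h1, ← h2]

/-- the commutator modulo the next term -/
lemma comm_mod {k l : ℕ} (hk : 1 ≤ k) (hl : 1 ≤ l) {u v : Rˣ} (hu : (u : R) - 1 ∈ F k)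
    (hv : (v : R) - 1 ∈ F l) :
    ((⁅u, v⁆ : Rˣ) : R) - 1 - (((u : R) - 1) * ((v : R) - 1) - ((v : R) - 1) * ((u : R) - 1))
      ∈ F (k + l + 1) := by
  have hu1 := F_anti hk hu
  have hv1 := F_anti hl hv
  have hw : ((u⁻¹ * v⁻¹ : Rˣ) : R) - 1 ∈ F 1 := mul_mem_F (inv_mem_F hu1) (inv_mem_F hv1)
  have hc : ((u : R) - 1) * ((v : R) - 1) - ((v : R) - 1) * ((u : R) - 1) ∈ F (k + l) :=
    (F (k + l)).sub_mem (F_mul hu hv) (by rw [add_comm]; exact F_mul hv hu)
  rw [comm_ring]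
  exact F_mul hc hw

lemma prod_mod {a a' b b' : R} {k l : ℕ} (ha : a - a' ∈ F (k + 1)) (hb : b - b' ∈ F (l + 1))
    (ha' : a' ∈ F k) (hb' : b' ∈ F l) : a * b - a' * b' ∈ F (k + l + 1) := by
  have hbb : b ∈ F l := by
    have := (F l).add_mem (F_anti (by omega) hb) hb'
    simpa using this
  have e : a * b - a' * b' = (a - a') * b + a' * (b - b') := by noncomm_ring
  rw [e]
  refine (F _).add_mem ?_ ?_
  · have := F_mul ha hbb
    rwa [show k + 1 + l = k + l + 1 by ring] at this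
  · have := F_mul ha' hb
    rwa [show k + (l + 1) = k + l + 1 by ring] at this

lemma brack_mod {a a' b b' : R} {k l : ℕ} (ha : a - a' ∈ F (k + 1)) (hb : b - b' ∈ F (l + 1))
    (ha' : a' ∈ F k) (hb' : b' ∈ F l) :
    (a * b - b * a) - (a' * b' - b' * a') ∈ F (k + l + 1) := by
  have e : (a * b - b * a) - (a' * b' - b' * a') = (a * b - a' * b') - (b * a - b' * a') := by
    noncomm_ring
  rw [e]
  refine (F _).sub_mem (prod_mod ha hb ha' hb') ?_
  rw [add_comm k l]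
  exact prod_mod hb ha hb' ha'

/-- commutator of elements with given parts of degree one -/
lemma comm_one {u v : Rˣ} {a b : Fin 4 → ZMod 2} (hu : (u : R) - 1 - X a ∈ F 2)
    (hv : (v : R) - 1 - X b ∈ F 2) :
    ((⁅u, v⁆ : Rˣ) : R) - 1 - (X a * X b - X b * X a) ∈ F 3 := by
  have hu1 : (u : R) - 1 ∈ F 1 := by
    have := (F 1).add_mem (F_anti (by norm_num) hu) (X_mem a)
    simpa using this
  have hv1 : (v : R) - 1 ∈ F 1 := by
    have := (F 1).add_mem (F_anti (by norm_num) hv) (X_mem b)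
    simpa using this
  have h1 := comm_mod le_rfl le_rfl hu1 hv1
  have h2 := brack_mod (k := 1) (l := 1) hu hv (X_mem a) (X_mem b)
  have := (F 3).add_mem h1 h2
  simpa using this

lemma T_eq {u v w y : Rˣ} {a b c d : Fin 4 → ZMod 2} (hu : (u : R) - 1 - X a ∈ F 2)
    (hv : (v : R) - 1 - X b ∈ F 2) (hw : (w : R) - 1 - X c ∈ F 2)
    (hy : (y : R) - 1 - X d ∈ F 2) :
    ((⁅⁅u, v⁆, ⁅w, y⁆⁆ : Rˣ) : R) - 1 =
      (X a * X b - X b * X a) * (X c * X d - X d * X c) -
      (X c * X d - X d * X c) * (X a * X b - X b * X a) := by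
  have h1 := comm_one hu hv
  have h2 := comm_one hw hy
  have hab : X a * X b - X b * X a ∈ F 2 :=
    (F 2).sub_mem (F_mul (X_mem a) (X_mem b)) (F_mul (X_mem b) (X_mem a))
  have hcd : X c * X d - X d * X c ∈ F 2 :=
    (F 2).sub_mem (F_mul (X_mem c) (X_mem d)) (F_mul (X_mem d) (X_mem c))
  have h1' : ((⁅u, v⁆ : Rˣ) : R) - 1 ∈ F 2 := by
    have := (F 2).add_mem (F_anti (by norm_num) h1) hab
    simpa using this
  have h2' : ((⁅w, y⁆ : Rˣ) : R) - 1 ∈ F 2 := by
    have := (F 2).add_mem (F_anti (by norm_num) h2) hcd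
    simpa using this
  have h3 := comm_mod (by norm_num) (by norm_num) h1' h2'
  have h4 := brack_mod (k := 2) (l := 2) h1 h2 hab hcd
  have h5 := F_five ((F 5).add_mem h3 h4)
  have h6 := sub_eq_zero.mp (by simpa using h5 :
    ((⁅⁅u, v⁆, ⁅w, y⁆⁆ : Rˣ) : R) - 1 -
      ((X a * X b - X b * X a) * (X c * X d - X d * X c) -
      (X c * X d - X d * X c) * (X a * X b - X b * X a)) = 0)
  exact h6

lemma F_four {a : R} (ha : a ∈ F 4) (h : a 0 7 = 0) : a = 0 := by
  ext i j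
  by_cases hij : deg j < deg i + 4
  · exact ha i j hij
  · have hi : i = 0 := by
      revert hij; revert i j; decide
    have hj : j = 7 := by
      revert hij; revert i j; decide
    rw [hi, hj]; exact h

lemma comm_eq_one {u v w y : Rˣ} {a b c d : Fin 4 → ZMod 2} (hu : (u : R) - 1 - X a ∈ F 2)
    (hv : (v : R) - 1 - X b ∈ F 2) (hw : (w : R) - 1 - X c ∈ F 2)
    (hy : (y : R) - 1 - X d ∈ F 2) (hdet : (Matrix.of ![a, b, c, d]).det = 0) :
    ⁅⁅u, v⁆, ⁅w, y⁆⁆ = 1 := by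
  have h := T_eq hu hv hw hy
  have h4 : (X a * X b - X b * X a) * (X c * X d - X d * X c) -
      (X c * X d - X d * X c) * (X a * X b - X b * X a) ∈ F 4 := by
    have hab : X a * X b - X b * X a ∈ F 2 :=
      (F 2).sub_mem (F_mul (X_mem a) (X_mem b)) (F_mul (X_mem b) (X_mem a))
    have hcd : X c * X d - X d * X c ∈ F 2 :=
      (F 2).sub_mem (F_mul (X_mem c) (X_mem d)) (F_mul (X_mem d) (X_mem c))
    exact (F 4).sub_mem (F_mul hab hcd) (F_mul hcd hab)
  have h0 := F_four h4 (by rw [T_entry, hdet])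
  rw [h0] at h
  exact Units.ext (sub_eq_zero.mp h)

/-- the elements of `1 + F 1` whose part of degree one has coordinates in `W` -/
def GW (W : AddSubgroup (Fin 4 → ZMod 2)) : Subgroup Rˣ where
  carrier := {u | ∃ v ∈ W, (u : R) - 1 - X v ∈ F 2}
  one_mem' := ⟨0, W.zero_mem, by simp [X_zero]⟩
  mul_mem' := by
    rintro u u' ⟨v, hv, h⟩ ⟨v', hv', h'⟩
    refine ⟨v + v', W.add_mem hv hv', ?_⟩
    have hu1 : (u : R) - 1 ∈ F 1 := by
      have := (F 1).add_mem (F_anti (by norm_num) h) (X_mem v)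
      simpa using this
    have hu1' : (u' : R) - 1 ∈ F 1 := by
      have := (F 1).add_mem (F_anti (by norm_num) h') (X_mem v')
      simpa using this
    have e : ((u * u' : Rˣ) : R) - 1 - X (v + v') =
        ((u : R) - 1) * ((u' : R) - 1) + ((u : R) - 1 - X v) + ((u' : R) - 1 - X v') := by
      rw [Units.val_mul, X_add]; noncomm_ring
    rw [e]
    exact (F 2).add_mem ((F 2).add_mem (F_mul hu1 hu1') h) h'
  inv_mem' := by
    rintro u ⟨v, hv, h⟩
    refine ⟨-v, W.neg_mem hv, ?_⟩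
    have hu1 : (u : R) - 1 ∈ F 1 := by
      have := (F 1).add_mem (F_anti (by norm_num) h) (X_mem v)
      simpa using this
    have hi := inv_mem_F hu1
    have hX : X (-v) = - X v := by
      have := X_add (-v) v
      rw [neg_add_cancel, X_zero] at this
      exact eq_neg_of_add_eq_zero_left this.symm
    have h1 : (u : R) * ((u⁻¹ : Rˣ) : R) = 1 := by
      rw [← Units.val_mul, mul_inv_cancel, Units.val_one]
    have e : ((u⁻¹ : Rˣ) : R) - 1 - X (-v) =
        -(((u : R) - 1) * (((u⁻¹ : Rˣ) : R) - 1)) - ((u : R) - 1 - X v) := by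
      have : ((u : R) - 1) * (((u⁻¹ : Rˣ) : R) - 1) = (u : R) * ((u⁻¹ : Rˣ) : R) - (u : R)
          - ((u⁻¹ : Rˣ) : R) + 1 := by noncomm_ring
      rw [hX, this, h1]; noncomm_ring
    rw [e]
    exact (F 2).sub_mem ((F 2).neg_mem (F_mul hu1 hi)) h

/-- the group -/
abbrev G : Type := ↥(GW ⊤)

lemma pow_eight (g : G) : g ^ 2 ^ 3 = 1 := by
  obtain ⟨u, v, -, h⟩ := g
  have hu1 : (u : R) - 1 ∈ F 1 := by
    have := (F 1).add_mem (F_anti (by norm_num) h) (X_mem v)
    simpa using this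
  apply Subtype.ext
  apply Units.ext
  have e : ∀ m : R, (1 + m) ^ 2 = 1 + m ^ 2 := by
    intro m
    have h2 : m + m = 0 := by
      ext i j
      rw [Matrix.add_apply]
      exact CharTwo.add_self_eq_zero _
    calc (1 + m) ^ 2 = 1 + m ^ 2 + (m + m) := by noncomm_ring
      _ = 1 + m ^ 2 := by rw [h2, add_zero]
  have hm : (u : R) = 1 + ((u : R) - 1) := by abel
  have h8 : (u : R) ^ 8 = 1 + ((u : R) - 1) ^ 8 := by
    calc (u : R) ^ 8 = (((u : R) ^ 2) ^ 2) ^ 2 := by rw [← pow_mul, ← pow_mul]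
      _ = 1 + ((((u : R) - 1) ^ 2) ^ 2) ^ 2 := by rw [hm, e, e, e, ← hm]
      _ = 1 + ((u : R) - 1) ^ 8 := by rw [← pow_mul, ← pow_mul]
  have hF : ∀ n : ℕ, ((u : R) - 1) ^ n ∈ F n := by
    intro n
    induction n with
    | zero =>
      intro i j hij
      rw [pow_zero]
      rw [Matrix.one_apply_ne]
      rintro rfl
      omega
    | succ n ih => rw [pow_succ]; exact F_mul ih hu1
  have h0 : ((u : R) - 1) ^ 8 = 0 := F_five (F_anti (by norm_num) (hF 8))
  show ((u ^ 2 ^ 3 : Rˣ) : R) = ((1 : Rˣ) : R)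
  rw [Units.val_pow_eq_pow_val, Units.val_one]
  norm_num
  rw [h8, h0, add_zero]

lemma not_metab : dd (⊤ : Subgroup G) ≠ ⊥ := by
  intro hbot
  -- the four elements `1 + X k`
  have hex : ∀ v : Fin 4 → ZMod 2, ∃ g : G, ((g : Rˣ) : R) - 1 = X v := by
    intro v
    have hF : ∀ n : ℕ, (X v) ^ n ∈ F n := by
      intro n
      induction n with
      | zero =>
        intro i j hij
        rw [pow_zero]
        rw [Matrix.one_apply_ne]
        rintro rfl
        omega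
      | succ n ih => rw [pow_succ]; exact F_mul ih (X_mem v)
    have hnil : IsNilpotent (X v) := ⟨5, F_five (hF 5)⟩
    obtain ⟨u, hu⟩ := hnil.isUnit_one_add
    refine ⟨⟨u, v, trivial, ?_⟩, ?_⟩
    · rw [hu]; simp
    · show (u : R) - 1 = X v
      rw [hu]; simp
  obtain ⟨g0, h0⟩ := hex ![1, 0, 0, 0]
  obtain ⟨g1, h1⟩ := hex ![0, 1, 0, 0]
  obtain ⟨g2, h2⟩ := hex ![0, 0, 1, 0]
  obtain ⟨g3, h3⟩ := hex ![0, 0, 0, 1]
  have hmem : ⁅⁅g0, g1⁆, ⁅g2, g3⁆⁆ ∈ dd (⊤ : Subgroup G) :=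
    Subgroup.commutator_mem_commutator
      (Subgroup.commutator_mem_commutator (Subgroup.mem_top _) (Subgroup.mem_top _))
      (Subgroup.commutator_mem_commutator (Subgroup.mem_top _) (Subgroup.mem_top _))
  rw [hbot, Subgroup.mem_bot] at hmem
  have hT := T_eq (u := (g0 : Rˣ)) (v := g1) (w := g2) (y := g3)
    (a := ![1, 0, 0, 0]) (b := ![0, 1, 0, 0]) (c := ![0, 0, 1, 0]) (d := ![0, 0, 0, 1])
    (by rw [h0, sub_self]; exact (F 2).zero_mem) (by rw [h1, sub_self]; exact (F 2).zero_mem)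
    (by rw [h2, sub_self]; exact (F 2).zero_mem) (by rw [h3, sub_self]; exact (F 2).zero_mem)
  have h1' : (⁅⁅(g0 : Rˣ), (g1 : Rˣ)⁆, ⁅(g2 : Rˣ), (g3 : Rˣ)⁆⁆ : Rˣ) = 1 := by
    have := congrArg (Subtype.val) hmem
    exact this
  rw [h1', Units.val_one, sub_self] at hT
  have hE := congrArg (fun M : R => M 0 7) hT
  simp only [T_entry] at hE
  have hd : (Matrix.of ![![(1 : ZMod 2), 0, 0, 0], ![0, 1, 0, 0], ![0, 0, 1, 0],
      ![0, 0, 0, 1]]).det = 1 := by decide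
  rw [hd] at hE
  exact absurd hE (by decide)

lemma three_gen (f : Fin 3 → G) : dd (Subgroup.closure (Set.range f)) = ⊥ := by
  have hf : ∀ i, ∃ v : Fin 4 → ZMod 2, (((f i : G) : Rˣ) : R) - 1 - X v ∈ F 2 := by
    intro i
    obtain ⟨v, -, h⟩ := (f i).2
    exact ⟨v, h⟩
  choose v hv using hf
  -- a nonzero functional killing the three vectors
  obtain ⟨l, hl0, hl⟩ : ∃ l : Fin 4 → ZMod 2, l ≠ 0 ∧ ∀ i, v i ⬝ᵥ l = 0 := by
    have hker : LinearMap.ker (Matrix.toLin' (Matrix.of v : Matrix (Fin 3) (Fin 4) (ZMod 2))) ≠ ⊥ := by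
      apply LinearMap.ker_ne_bot_of_finrank_lt
      simp
    obtain ⟨l, hl, hl0⟩ := (Submodule.ne_bot_iff _).mp hker
    refine ⟨l, hl0, fun i => ?_⟩
    have := congrFun (LinearMap.mem_ker.mp hl) i
    simpa [Matrix.toLin'_apply, Matrix.mulVec] using this
  let W : AddSubgroup (Fin 4 → ZMod 2) :=
    { carrier := {w | w ⬝ᵥ l = 0}
      zero_mem' := by simp
      add_mem' := by
        intro a b ha hb
        have ha' : a ⬝ᵥ l = 0 := ha
        have hb' : b ⬝ᵥ l = 0 := hb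
        show (a + b) ⬝ᵥ l = 0
        rw [add_dotProduct, ha', hb', add_zero]
      neg_mem' := by
        intro a ha
        have ha' : a ⬝ᵥ l = 0 := ha
        show (-a) ⬝ᵥ l = 0
        rw [neg_dotProduct, ha', neg_zero] }
  have hcl : ∀ s ∈ Subgroup.closure (Set.range f), ((s : G) : Rˣ) ∈ GW W := by
    intro s hs
    have hle : Subgroup.closure (Set.range f) ≤ (GW W).comap (GW ⊤).subtype := by
      rw [Subgroup.closure_le]
      rintro _ ⟨i, rfl⟩
      exact ⟨v i, hl i, hv i⟩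
    exact hle hs
  set P := Subgroup.closure (Set.range f) with hP
  have key : ∀ a ∈ P, ∀ b ∈ P, ∀ c ∈ P, ∀ d ∈ P, ⁅⁅a, b⁆, ⁅c, d⁆⁆ = 1 := by
    intro a ha b hb c hc d hd
    obtain ⟨va, ha1, ha2⟩ := hcl a ha
    obtain ⟨vb, hb1, hb2⟩ := hcl b hb
    obtain ⟨vc, hc1, hc2⟩ := hcl c hc
    obtain ⟨vd, hd1, hd2⟩ := hcl d hd
    have hdet : (Matrix.of ![va, vb, vc, vd]).det = 0 := by
      rw [← Matrix.exists_mulVec_eq_zero_iff]
      refine ⟨l, hl0, ?_⟩
      funext i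
      fin_cases i
      · exact ha1
      · exact hb1
      · exact hc1
      · exact hd1
    have := comm_eq_one ha2 hb2 hc2 hd2 hdet
    exact Subtype.ext this
  have hc1 : ∀ a ∈ P, ∀ b ∈ P, ∀ y ∈ ⁅P, P⁆, ⁅a, b⁆ * y = y * ⁅a, b⁆ := by
    intro a ha b hb
    have hle : ⁅P, P⁆ ≤ Subgroup.centralizer {⁅a, b⁆} := by
      rw [Subgroup.commutator_le]
      intro c hc d hd
      rw [Subgroup.mem_centralizer_singleton_iff]
      exact (commutatorElement_eq_one_iff_mul_comm.mp (key a ha b hb c hc d hd)).symm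
    intro y hy
    exact (Subgroup.mem_centralizer_singleton_iff.mp (hle hy)).symm
  have hc2 : ⁅P, P⁆ ≤ Subgroup.centralizer (⁅P, P⁆ : Subgroup G) := by
    rw [Subgroup.commutator_le]
    intro a ha b hb
    rw [Subgroup.mem_centralizer_iff]
    intro y hy
    exact (hc1 a ha b hb y hy).symm
  exact (Subgroup.commutator_eq_bot_iff_le_centralizer).mpr hc2

end J7

theorem witness : ∃ (G : Type) (_ : Group G) (_ : Finite G), (∃ k : ℕ, ∀ g : G, g ^ (2 ^ k) = 1) ∧
    dd (⊤ : Subgroup G) ≠ ⊥ ∧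
    ∀ f : Fin 3 → G, dd (Subgroup.closure (Set.range f)) = ⊥ :=
  ⟨J7.G, inferInstance, inferInstance, ⟨3, J7.pow_eight⟩, J7.not_metab, J7.three_gen⟩

end Pool.Agent.TH95.NR
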