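import Pool.Agent.TH95.NR.AsmA
import Pool.Agent.TH95.NR.J6
import Pool.Agent.TH95.NR.J7

/-!
# Final assembly for S00678
-/

set_option autoImplicit false

namespace Pool.Agent.TH95.NR

open Pool.Agent.TH54.BU

section ddlemmas

variable {G H : Type*} [Group G] [Group H]

theorem dd_map (f : G →* H) (P : Subgroup G) : (dd P).map f = dd (P.map f) := by
  unfold dd
  rw [Subgroup.map_commutator, Subgroup.map_commutator]

theorem dd_mono {P Q : Subgroup G} (h : P ≤ Q) : dd P ≤ dd Q := by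
  unfold dd
  exact Subgroup.commutator_mono (Subgroup.commutator_mono h h) (Subgroup.commutator_mono h h)

theorem powSub_map_le (f : G →* H) (p : ℕ) : (powSub G p).map f ≤ powSub H p := by
  rw [Subgroup.map_le_iff_le_comap]
  unfold powSub
  have : ((Subgroup.normalClosure (Set.range fun g : H => g ^ p)).comap f).Normal :=
    Subgroup.Normal.comap Subgroup.normalClosure_normal f
  apply Subgroup.normalClosure_le_normal
  rintro _ ⟨g, rfl⟩
  rw [SetLike.mem_coe, Subgroup.mem_comap, map_pow]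
  exact Subgroup.subset_normalClosure ⟨f g, rfl⟩

theorem powSub_map_surj (f : G →* H) (hf : Function.Surjective f) (p : ℕ) :
    (powSub G p).map f = powSub H p := by
  apply le_antisymm (powSub_map_le f p)
  have hn : ((powSub G p).map f).Normal := Subgroup.Normal.map (powSub_normal G p) f hf
  show Subgroup.normalClosure (Set.range fun g : H => g ^ p) ≤ _
  apply Subgroup.normalClosure_le_normal
  rintro _ ⟨h, rfl⟩
  obtain ⟨g, rfl⟩ := hf h
  exact ⟨g ^ p, Subgroup.subset_normalClosure ⟨g, rfl⟩, map_pow f g p⟩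

theorem dd_normal (P : Subgroup G) [P.Normal] : (dd P).Normal := by
  unfold dd
  infer_instance

end ddlemmas

/-- the laws -/
def laws (p : ℕ) : Set (FreeGroup ℕ) :=
  {w | ∃ v ∈ dd (powSub (FreeGroup (Fin 3)) p), FreeGroup.map (Fin.val : Fin 3 → ℕ) v = w}

theorem lift_map_val {G : Type*} [Group G] (f : ℕ → G) (v : FreeGroup (Fin 3)) :
    FreeGroup.lift f (FreeGroup.map (Fin.val : Fin 3 → ℕ) v) =
      FreeGroup.lift (fun i : Fin 3 => f i) v := by
  have : (FreeGroup.lift f).comp (FreeGroup.map (Fin.val : Fin 3 → ℕ)) =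
      FreeGroup.lift (fun i : Fin 3 => f i) := by
    ext i
    simp
  exact DFunLike.congr_fun this v

/-- the groups which satisfy the laws -/
theorem laws_iff {G : Type*} [Group G] (p : ℕ) :
    (∀ w ∈ laws p, ∀ f : ℕ → G, FreeGroup.lift f w = 1) ↔
      ∀ (π : FreeGroup (Fin 3) →* G), ∀ v ∈ dd (powSub (FreeGroup (Fin 3)) p), π v = 1 := by
  constructor
  · intro h π v hv
    let f : ℕ → G := fun n => if hn : n < 3 then π (FreeGroup.of ⟨n, hn⟩) else 1
    have h1 := h _ ⟨v, hv, rfl⟩ f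
    rw [lift_map_val] at h1
    have h2 : FreeGroup.lift (fun i : Fin 3 => f i) = π := by
      ext i
      simp [f]
    rw [h2] at h1
    exact h1
  · rintro h _ ⟨v, hv, rfl⟩ f
    rw [lift_map_val]
    exact h _ v hv

/-- the verbal subgroup is contained in the second derived subgroup of the power subgroup -/
theorem verbal_le {F : Type*} [Group F] (p : ℕ) :
    Subgroup.normalClosure {x : F | ∃ w ∈ laws p, ∃ f : ℕ → F, FreeGroup.lift f w = x} ≤
      dd (powSub F p) := by
  have := dd_normal (powSub F p)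
  apply Subgroup.normalClosure_le_normal
  rintro _ ⟨_, ⟨v, hv, rfl⟩, f, rfl⟩
  rw [lift_map_val]
  have h1 : FreeGroup.lift (fun i : Fin 3 => f i) v ∈
      (dd (powSub (FreeGroup (Fin 3)) p)).map (FreeGroup.lift (fun i : Fin 3 => f i)) :=
    ⟨v, hv, rfl⟩
  rw [dd_map] at h1
  exact dd_mono (powSub_map_le _ p) h1

theorem verbal_three (p : ℕ) : dd (powSub (FreeGroup (Fin 3)) p) ≤
    Subgroup.normalClosure {x : FreeGroup (Fin 3) | ∃ w ∈ laws p, ∃ f : ℕ → FreeGroup (Fin 3),
      FreeGroup.lift f w = x} := by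
  intro v hv
  apply Subgroup.subset_normalClosure
  refine ⟨_, ⟨v, hv, rfl⟩, fun n => if hn : n < 3 then FreeGroup.of ⟨n, hn⟩ else 1, ?_⟩
  rw [lift_map_val]
  have h2 : FreeGroup.lift (fun i : Fin 3 => if hn : (i : ℕ) < 3 then
      (FreeGroup.of ⟨(i : ℕ), hn⟩ : FreeGroup (Fin 3)) else 1) = MonoidHom.id _ := by
    ext i
    simp
  rw [h2]
  rfl

/-- the verbal subgroup is functorial -/
theorem verbal_map {F F' : Type*} [Group F] [Group F'] (W : Set (FreeGroup ℕ)) (φ : F →* F') :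
    Subgroup.normalClosure {x : F | ∃ w ∈ W, ∃ f : ℕ → F, FreeGroup.lift f w = x} ≤
      (Subgroup.normalClosure
        {x : F' | ∃ w ∈ W, ∃ f : ℕ → F', FreeGroup.lift f w = x}).comap φ := by
  have : ((Subgroup.normalClosure
        {x : F' | ∃ w ∈ W, ∃ f : ℕ → F', FreeGroup.lift f w = x}).comap φ).Normal :=
    Subgroup.Normal.comap Subgroup.normalClosure_normal φ
  apply Subgroup.normalClosure_le_normal
  rintro _ ⟨w, hw, f, rfl⟩
  rw [SetLike.mem_coe, Subgroup.mem_comap]
  apply Subgroup.subset_normalClosure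
  refine ⟨w, hw, fun n => φ (f n), ?_⟩
  have : FreeGroup.lift (fun n => φ (f n)) = φ.comp (FreeGroup.lift f) := by
    ext n
    simp
  rw [this]
  rfl

theorem main :
    ¬ (∀ (W : Set (FreeGroup ℕ)) (n : ℕ),
    (∃ φ : (FreeGroup (Fin (n+1)) ⧸ Subgroup.normalClosure
              {x : FreeGroup (Fin (n+1)) | ∃ w ∈ W, ∃ f : ℕ → FreeGroup (Fin (n+1)), FreeGroup.lift f w = x})
            →* (FreeGroup (Fin n) ⧸ Subgroup.normalClosure
              {x : FreeGroup (Fin n) | ∃ w ∈ W, ∃ f : ℕ → FreeGroup (Fin n), FreeGroup.lift f w = x}),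
        Function.Injective φ) →
    ∀ (G : Type) [Group G] [Countable G],
      (∀ w ∈ W, ∀ f : ℕ → G, FreeGroup.lift f w = 1) →
      ∃ (H : Type) (_ : Group H),
        (∀ w ∈ W, ∀ f : ℕ → H, FreeGroup.lift f w = 1) ∧
        (∃ s : Fin n → H, Subgroup.closure (Set.range s) = ⊤) ∧
        ∃ ψ : G →* H, Function.Injective ψ) := by
  intro hall
  obtain ⟨p0, hp0⟩ := exp_embed
  obtain ⟨p, hpge, hp⟩ := Nat.exists_infinite_primes (p0 + 3)
  obtain ⟨L, _, ι, t, hι, hL, h1, h2, ht, ht2⟩ := hp0 p hp (by omega)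
  have hkey := wreath_trick p L ι t hι hL h1 h2 ht ht2
  obtain ⟨G, _, hfin, ⟨k, hk⟩, hG1, hG2⟩ := witness
  have hcount : Countable G := Finite.to_countable
  let Φ : FreeGroup (Fin 3) →* FreeGroup (Fin 2) :=
    FreeGroup.lift (fun i : Fin 3 => (FreeGroup.of (1 : Fin 2)) ^ (i : ℕ) *
      FreeGroup.of 0 * ((FreeGroup.of (1 : Fin 2)) ^ (i : ℕ))⁻¹)
  obtain ⟨H, _, hH, ⟨s, hs⟩, ψ, hψ⟩ := hall (laws p) 2 (by
    refine ⟨QuotientGroup.map _ _ Φ (verbal_map (laws p) Φ), ?_⟩
    rw [injective_iff_map_eq_one]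
    intro x hx
    obtain ⟨x, rfl⟩ := QuotientGroup.mk_surjective x
    have hx' := (QuotientGroup.eq_one_iff _).1 hx
    rw [QuotientGroup.eq_one_iff]
    exact verbal_three p (hkey x (verbal_le p hx'))) G (by
    rw [laws_iff]
    intro π v hv
    have hv1 : π v ∈ (dd (powSub (FreeGroup (Fin 3)) p)).map π := ⟨v, hv, rfl⟩
    rw [dd_map] at hv1
    have hle : (powSub (FreeGroup (Fin 3)) p).map π ≤
        Subgroup.closure (Set.range fun i : Fin 3 => π (FreeGroup.of i)) := by
      refine (Subgroup.map_mono le_top).trans ?_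
      rw [← FreeGroup.closure_range_of, MonoidHom.map_closure]
      apply Subgroup.closure_mono
      rintro _ ⟨_, ⟨i, rfl⟩, rfl⟩
      exact ⟨i, rfl⟩
    have hv2 := dd_mono hle hv1
    rw [hG2] at hv2
    exact Subgroup.mem_bot.1 hv2)
  rw [laws_iff] at hH
  let π : FreeGroup (Fin 3) →* H := FreeGroup.lift ![s 0, s 1, 1]
  have hπ : Function.Surjective π := by
    rw [← MonoidHom.range_eq_top, eq_top_iff, ← hs, Subgroup.closure_le]
    rintro _ ⟨i, rfl⟩
    fin_cases i
    · exact ⟨FreeGroup.of 0, by simp [π]⟩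
    · exact ⟨FreeGroup.of 1, by simp [π]⟩
  have hHdd : dd (powSub H p) = ⊥ := by
    rw [← powSub_map_surj π hπ p, ← dd_map, eq_bot_iff]
    rintro _ ⟨v, hv, rfl⟩
    exact Subgroup.mem_bot.2 (hH π v hv)
  -- every element of `G` is a `p`-th power
  have hcop : Nat.Coprime p (2 ^ k) := by
    apply Nat.Coprime.pow_right
    rw [Nat.coprime_primes hp Nat.prime_two]
    omega
  have hpow : ∀ g : G, ∃ h : G, h ^ p = g := by
    intro g
    have hg : Nat.Coprime (orderOf g) p :=
      (hcop.symm).coprime_dvd_left (orderOf_dvd_of_pow_eq_one (hk g))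
    obtain ⟨m, hm⟩ := exists_pow_eq_self_of_coprime (n := p) (x := g) hg.symm
    exact ⟨g ^ m, by rw [← pow_mul, mul_comm, pow_mul, hm]⟩
  have hle : (⊤ : Subgroup G).map ψ ≤ powSub H p := by
    rintro _ ⟨g, _, rfl⟩
    obtain ⟨h, rfl⟩ := hpow g
    rw [map_pow]
    exact Subgroup.subset_normalClosure ⟨ψ h, rfl⟩
  have h3 : (dd (⊤ : Subgroup G)).map ψ = ⊥ := by
    rw [dd_map, eq_bot_iff, ← hHdd]
    exact dd_mono hle
  exact hG1 ((Subgroup.map_eq_bot_iff_of_injective _ hψ).1 h3)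

end Pool.Agent.TH95.NR
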