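import Pool.Agent.TH95.NR.Defs

/-!
# The tree pseudo-length on an HNN extension

The length of an element is the number of letters `t` in its normal form.
-/

set_option autoImplicit false

namespace Pool.Agent.TH95.NR

open Pool.Agent.TH54.BU

namespace J3

/-- length of the longest common prefix of two lists -/
noncomputable def lcp {α : Type*} : List α → List α → ℕ
  | a :: l, b :: m => by
    classical exact if a = b then lcp l m + 1 else 0
  | [], _ => 0
  | _ :: _, [] => 0

section lists

variable {α : Type*}

@[simp] theorem lcp_nil_left (m : List α) : lcp [] m = 0 := by simp [lcp]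

@[simp] theorem lcp_nil_right (l : List α) : lcp l [] = 0 := by cases l <;> simp [lcp]

theorem lcp_cons_same (a : α) (l m : List α) : lcp (a :: l) (a :: m) = lcp l m + 1 := by
  simp [lcp]

theorem lcp_cons_ne {a b : α} (h : a ≠ b) (l m : List α) : lcp (a :: l) (b :: m) = 0 := by
  simp [lcp, h]

theorem lcp_le_left (l m : List α) : lcp l m ≤ l.length := by
  induction l generalizing m with
  | nil => simp
  | cons a l ih =>
    cases m with
    | nil => simp
    | cons b m =>
      by_cases h : a = b
      · subst h; rw [lcp_cons_same]; simpa using ih m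
      · rw [lcp_cons_ne h]; simp

theorem lcp_comm (l m : List α) : lcp l m = lcp m l := by
  induction l generalizing m with
  | nil => simp
  | cons a l ih =>
    cases m with
    | nil => simp
    | cons b m =>
      by_cases h : a = b
      · subst h; rw [lcp_cons_same, lcp_cons_same, ih]
      · rw [lcp_cons_ne h, lcp_cons_ne (Ne.symm h)]

theorem lcp_le_right (l m : List α) : lcp l m ≤ m.length := by
  rw [lcp_comm]; exact lcp_le_left m l

theorem lcp_self (l : List α) : lcp l l = l.length := by
  induction l with
  | nil => simp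
  | cons a l ih => rw [lcp_cons_same, ih]; simp

theorem lcp_tri (l m n : List α) : min (lcp l m) (lcp m n) ≤ lcp l n := by
  induction l generalizing m n with
  | nil => simp
  | cons a l ih =>
    cases m with
    | nil => simp
    | cons b m =>
      cases n with
      | nil => simp
      | cons c n =>
        by_cases h1 : a = b
        · by_cases h2 : b = c
          · subst h1; subst h2
            rw [lcp_cons_same, lcp_cons_same, lcp_cons_same]
            have := ih m n
            omega
          · rw [lcp_cons_ne h2]; simp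
        · rw [lcp_cons_ne h1]; simp

theorem lcp_append (l m : List α) (a : α) :
    lcp l m ≤ lcp (l ++ [a]) m ∧ lcp (l ++ [a]) m ≤ lcp l m + 1 := by
  induction l generalizing m with
  | nil =>
    cases m with
    | nil => simp
    | cons b m =>
      by_cases h : a = b
      · subst h; rw [List.nil_append, lcp_cons_same]; simp
      · rw [List.nil_append, lcp_cons_ne h]; simp
  | cons c l ih =>
    cases m with
    | nil => simp
    | cons b m =>
      rw [List.cons_append]
      by_cases h : c = b
      · subst h; rw [lcp_cons_same, lcp_cons_same]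
        have := ih m
        omega
      · rw [lcp_cons_ne h, lcp_cons_ne h]; simp

theorem lcp_split (l m : List α) : ∃ s r₁ r₂ : List α, l = s ++ r₁ ∧ m = s ++ r₂ ∧
    s.length = lcp l m := by
  induction l generalizing m with
  | nil => exact ⟨[], [], m, by simp, by simp, by simp⟩
  | cons a l ih =>
    cases m with
    | nil => exact ⟨[], a :: l, [], by simp, by simp, by simp⟩
    | cons b m =>
      by_cases h : a = b
      · subst h
        obtain ⟨s, r₁, r₂, h1, h2, h3⟩ := ih m
        refine ⟨a :: s, r₁, r₂, by simp [h1], by simp [h2], ?_⟩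
        rw [lcp_cons_same, List.length_cons, h3]
      · exact ⟨[], a :: l, b :: m, by simp, by simp, by rw [lcp_cons_ne h]; simp⟩

/-- the tree distance of lists -/
noncomputable def T (l m : List α) : ℕ := l.length + m.length - 2 * lcp l m

theorem T_eq (l m : List α) : T l m + 2 * lcp l m = l.length + m.length := by
  have h1 := lcp_le_left l m
  have h2 := lcp_le_right l m
  unfold T
  omega

theorem T_four (x y z w : List α) : T x y + T z w ≤ max (T x z + T y w) (T x w + T y z) := by
  have h1 := T_eq x y
  have h2 := T_eq z w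
  have h3 := T_eq x z
  have h4 := T_eq y w
  have h5 := T_eq x w
  have h6 := T_eq y z
  have c1 := lcp_comm z y
  have c2 := lcp_comm z x
  have c3 := lcp_comm w x
  have c4 := lcp_comm w y
  have t1 := lcp_tri x z y
  have t2 := lcp_tri z x w
  have t3 := lcp_tri x w y
  have t4 := lcp_tri z y w
  rw [c1] at t1
  rw [c2] at t2
  rw [c4] at t3
  rw [c1] at t4
  omega

theorem T_append (l m : List α) (a : α) : T (l ++ [a]) m ≤ T l m + 1 ∧ T l m ≤ T (l ++ [a]) m + 1 := by
  have h1 := T_eq (l ++ [a]) m
  have h2 := T_eq l m
  have h3 := lcp_append l m a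
  have h4 : (l ++ [a]).length = l.length + 1 := by simp
  omega

theorem T_self (l : List α) : T l l = 0 := by
  have := T_eq l l
  rw [lcp_self] at this
  omega

theorem T_le (l m : List α) : T l m ≤ l.length + m.length := by
  have := T_eq l m
  omega

theorem T_nil (m : List α) : T [] m = m.length := by
  have := T_eq [] m
  simpa using this

end lists

open HNNExtension HNNExtension.NormalWord

variable {G : Type} [Group G] {A B : Subgroup G} {φ : A ≃* B} (d : TransversalPair G A B)

/-- the letters of the normal form -/
noncomputable def N (g : HNNExtension G A B φ) : List (ℤˣ × G) :=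
  (g • (empty : NormalWord d)).toList

/-- product of a list of letters -/
def P (φ : A ≃* B) (l : List (ℤˣ × G)) : HNNExtension G A B φ :=
  (l.map (fun x => (HNNExtension.t : HNNExtension G A B φ) ^ (x.1 : ℤ) * of x.2)).prod

theorem P_nil : P φ [] = 1 := by simp [P]

theorem P_cons (x : ℤˣ × G) (l : List (ℤˣ × G)) :
    P φ (x :: l) = HNNExtension.t ^ (x.1 : ℤ) * of x.2 * P φ l := by simp [P]

theorem P_append (l m : List (ℤˣ × G)) : P φ (l ++ m) = P φ l * P φ m := by simp [P]

theorem exists_head (g : HNNExtension G A B φ) : ∃ a : G, g = of a * P φ (N d g) := by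
  refine ⟨(g • (empty : NormalWord d)).head, ?_⟩
  have h : (g • (empty : NormalWord d)).prod φ = g := by
    rw [prod_smul, prod_empty, mul_one]
  exact h.symm

theorem N_of_mul (a : G) (g : HNNExtension G A B φ) : N d (of a * g) = N d g := by
  unfold N
  rw [mul_smul, of_smul_eq_smul]
  rfl

theorem adj (u : ℤˣ) (w : NormalWord d) :
    ∃ a, (unitsSMul φ u w).toList = a :: w.toList ∨ w.toList = a :: (unitsSMul φ u w).toList := by
  by_cases h : Cancels u w
  · rw [unitsSMul, dif_pos h]
    cases w using consRecOn with
    | ofGroup => simp [Cancels] at h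
    | cons g u' w h1 h2 ih =>
      refine ⟨(u', w.head), Or.inr ?_⟩
      simp [unitsSMulWithCancel]
  · rw [unitsSMul, dif_neg h]
    exact ⟨(u, ((((unitsSMulGroup φ d u w.head).2 : G) * w.head⁻¹ : G) • w).head), Or.inl rfl⟩

theorem N_t_mul (u : ℤˣ) (g : HNNExtension G A B φ) :
    ∃ a, N d (HNNExtension.t ^ (u : ℤ) * g) = a :: N d g ∨
      N d g = a :: N d (HNNExtension.t ^ (u : ℤ) * g) := by
  unfold N
  rw [mul_smul, t_pow_smul_eq_unitsSMul]
  exact adj d u _

theorem N_one : N d (1 : HNNExtension G A B φ) = [] := by
  unfold N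
  rw [one_smul]
  rfl

/-- reversed normal form -/
noncomputable def R (g : HNNExtension G A B φ) : List (ℤˣ × G) := (N d g).reverse

theorem R_len (g : HNNExtension G A B φ) : (R d g).length = (N d g).length := by simp [R]

theorem T_letter (u : ℤˣ) (x : G) (g : HNNExtension G A B φ) (m : List (ℤˣ × G)) :
    T (R d (HNNExtension.t ^ (u : ℤ) * of x * g)) m ≤ T (R d g) m + 1 := by
  rw [mul_assoc]
  obtain ⟨a, h | h⟩ := N_t_mul (φ := φ) d u (of x * g)
  · have : R d (HNNExtension.t ^ (u : ℤ) * (of x * g)) = R d g ++ [a] := by
      unfold R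
      rw [h, N_of_mul, List.reverse_cons]
    rw [this]
    exact (T_append _ _ _).1
  · have : R d g = R d (HNNExtension.t ^ (u : ℤ) * (of x * g)) ++ [a] := by
      unfold R
      rw [N_of_mul] at h
      rw [h, List.reverse_cons]
    rw [this]
    exact (T_append _ _ _).2

theorem T_P (l : List (ℤˣ × G)) (g : HNNExtension G A B φ) (m : List (ℤˣ × G)) :
    T (R d (P φ l * g)) m ≤ T (R d g) m + l.length := by
  induction l with
  | nil => simp [P_nil]
  | cons x l ih =>
    rw [P_cons, mul_assoc]
    refine (T_letter d x.1 x.2 _ m).trans ?_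
    rw [List.length_cons]
    omega

theorem len_t (u : ℤˣ) (g : HNNExtension G A B φ) :
    (N d (HNNExtension.t ^ (u : ℤ) * g)).length ≤ (N d g).length + 1 := by
  obtain ⟨a, h | h⟩ := N_t_mul (φ := φ) d u g
  · rw [h]; simp
  · rw [h]; simp; omega

theorem len_P (l : List (ℤˣ × G)) (g : HNNExtension G A B φ) :
    (N d (P φ l * g)).length ≤ l.length + (N d g).length := by
  induction l with
  | nil => simp [P_nil]
  | cons x l ih =>
    rw [P_cons, mul_assoc, mul_assoc]
    refine (len_t d x.1 _).trans ?_
    rw [N_of_mul, List.length_cons]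
    omega

theorem len_Pinv (l : List (ℤˣ × G)) (g : HNNExtension G A B φ) :
    (N d ((P φ l)⁻¹ * g)).length ≤ l.length + (N d g).length := by
  induction l generalizing g with
  | nil => simp [P_nil]
  | cons x l ih =>
    have h1 : (P φ (x :: l))⁻¹ * g =
        (P φ l)⁻¹ * (of x.2⁻¹ * (HNNExtension.t ^ ((-x.1 : ℤˣ) : ℤ) * g)) := by
      rw [P_cons]
      simp [mul_assoc]
    rw [h1]
    refine (ih _).trans ?_
    rw [N_of_mul]
    have := len_t d (-x.1) g
    rw [List.length_cons]
    omega

/-- the main formula -/
theorem len_div (g h : HNNExtension G A B φ) : (N d (g * h⁻¹)).length = T (R d g) (R d h) := by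
  apply le_antisymm
  · obtain ⟨s, r₁, r₂, h1, h2, h3⟩ := lcp_split (R d g) (R d h)
    obtain ⟨a, ha⟩ := exists_head d g
    obtain ⟨b, hb⟩ := exists_head d h
    have e1 : N d g = r₁.reverse ++ s.reverse := by
      rw [← List.reverse_append, ← h1, R, List.reverse_reverse]
    have e2 : N d h = r₂.reverse ++ s.reverse := by
      rw [← List.reverse_append, ← h2, R, List.reverse_reverse]
    have key : g * h⁻¹ = of a * (P φ r₁.reverse * ((P φ r₂.reverse)⁻¹ * (of b⁻¹ * 1))) := by
      rw [e1, P_append] at ha
      rw [e2, P_append] at hb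
      rw [ha, hb]
      simp [mul_assoc]
    rw [key, N_of_mul]
    refine (len_P d _ _).trans ?_
    have h4 := len_Pinv (φ := φ) d r₂.reverse (of b⁻¹ * 1)
    rw [N_of_mul, N_one] at h4
    have h5 := T_eq (R d g) (R d h)
    have h6 : (R d g).length = s.length + r₁.length := by rw [h1]; simp
    have h7 : (R d h).length = s.length + r₂.length := by rw [h2]; simp
    simp only [List.length_reverse, List.length_nil] at h4 ⊢
    omega
  · obtain ⟨a, ha⟩ := exists_head d (g * h⁻¹)
    have h1 : N d g = N d (P φ (N d (g * h⁻¹)) * h) := by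
      have : g = of a * (P φ (N d (g * h⁻¹)) * h) := by
        rw [← mul_assoc, ← ha]; simp
      conv_lhs => rw [this]
      rw [N_of_mul]
    have h2 : R d g = R d (P φ (N d (g * h⁻¹)) * h) := by unfold R; rw [← h1]
    rw [h2]
    refine (T_P d _ _ _).trans ?_
    rw [T_self]
    simp

theorem len_reduced (w : ReducedWord G A B) : (N d (w.prod φ)).length = w.toList.length := by
  obtain ⟨w', h1, h2, -⟩ := ReducedWord.exists_normalWord_prod_eq φ d w
  unfold N
  rw [← h1, prod_smul_empty]
  have := congrArg List.length h2
  simpa using this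

theorem len_zero_iff (g : HNNExtension G A B φ) : (N d g).length = 0 ↔
    g ∈ (HNNExtension.of : G →* HNNExtension G A B φ).range := by
  constructor
  · intro h
    obtain ⟨a, ha⟩ := exists_head d g
    rw [List.length_eq_zero_iff] at h
    rw [h, P_nil, mul_one] at ha
    exact ⟨a, ha.symm⟩
  · rintro ⟨a, rfl⟩
    have : N d (of a : HNNExtension G A B φ) = [] := by
      rw [← mul_one (of a : HNNExtension G A B φ), N_of_mul, N_one]
    rw [this]; rfl

/-- the parity -/
noncomputable def par (φ : A ≃* B) : HNNExtension G A B φ →* Multiplicative (ZMod 2) :=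
  HNNExtension.lift 1 (Multiplicative.ofAdd 1) (by intro a; simp)

theorem par_P (l : List (ℤˣ × G)) : par φ (P φ l) = Multiplicative.ofAdd ((l.length : ℕ) : ZMod 2) := by
  induction l with
  | nil => simp [P_nil]
  | cons x l ih =>
    rw [P_cons, map_mul, map_mul, ih, map_zpow]
    simp only [par, lift_t, lift_of, MonoidHom.one_apply, mul_one]
    rw [← ofAdd_zsmul, ← ofAdd_add]
    congr 1
    rcases Int.units_eq_one_or x.1 with h | h
    · rw [h]; simp; ring
    · rw [h]
      have : (-1 : ZMod 2) = 1 := by decide
      simp [this]; ring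

theorem par_eq (g : HNNExtension G A B φ) :
    par φ g = Multiplicative.ofAdd (((N d g).length : ℕ) : ZMod 2) := by
  obtain ⟨a, ha⟩ := exists_head d g
  conv_lhs => rw [ha]
  rw [map_mul, par_P]
  simp [par]

/-- the exponent sum -/
noncomputable def chi (φ : A ≃* B) : HNNExtension G A B φ →* Multiplicative ℤ :=
  HNNExtension.lift 1 (Multiplicative.ofAdd 1) (by intro a; simp)

end J3

theorem hnn_pl (G : Type) [Group G] (A B : Subgroup G) (φ : A ≃* B) :
    ∃ P : PL (HNNExtension G A B φ),
      (∀ g, P.len g = 0 ↔ g ∈ (HNNExtension.of : G →* HNNExtension G A B φ).range) ∧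
      (∀ w : HNNExtension.NormalWord.ReducedWord G A B, P.len (w.prod φ) = w.toList.length) ∧
      (∀ g, ∃ w : HNNExtension.NormalWord.ReducedWord G A B, w.prod φ = g) ∧
      (∀ g h, Even (P.len (g * h) + P.len g + P.len h)) ∧
      (∀ g, P.len g = 1 → P.len (g * g) ≠ 0) := by
  classical
  obtain ⟨d⟩ := HNNExtension.NormalWord.TransversalPair.nonempty G A B
  have hdiv := J3.len_div (φ := φ) d
  have hinv : ∀ g : HNNExtension G A B φ, (J3.N d g⁻¹).length = (J3.N d g).length := by
    intro g
    have := hdiv 1 g
    rw [one_mul] at this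
    rw [this]
    have h1 : J3.R d (1 : HNNExtension G A B φ) = [] := by
      unfold J3.R; rw [J3.N_one]; rfl
    rw [h1, J3.T_nil, J3.R_len]
  have hd2 : ∀ u v : HNNExtension G A B φ,
      (J3.N d (u⁻¹ * v)).length = J3.T (J3.R d u⁻¹) (J3.R d v⁻¹) := by
    intro u v
    have := hdiv u⁻¹ v⁻¹
    rwa [inv_inv] at this
  have hstep : ∀ (g : HNNExtension G A B φ) (k : ℕ), k ≤ (J3.N d g).length →
      ∃ h, (J3.N d h).length = k ∧ (J3.N d (h⁻¹ * g)).length + k = (J3.N d g).length := by
    intro g k hk
    set w : HNNExtension.NormalWord d := g • (HNNExtension.NormalWord.empty) with hw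
    have hN : J3.N d g = w.toList := rfl
    have hg : g = HNNExtension.of w.head * J3.P φ w.toList := by
      have h : w.prod φ = g := by
        rw [hw, HNNExtension.NormalWord.prod_smul, HNNExtension.NormalWord.prod_empty, mul_one]
      exact h.symm
    let w1 : HNNExtension.NormalWord.ReducedWord G A B :=
      ⟨w.head, w.toList.take k, w.chain.take k⟩
    let w2 : HNNExtension.NormalWord.ReducedWord G A B :=
      ⟨1, w.toList.drop k, w.chain.drop k⟩
    have h1 : w1.prod φ = HNNExtension.of w.head * J3.P φ (w.toList.take k) := rfl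
    have h2 : w2.prod φ = J3.P φ (w.toList.drop k) := by
      change HNNExtension.of 1 * J3.P φ (w.toList.drop k) = _
      rw [map_one, one_mul]
    have h3 : g = w1.prod φ * w2.prod φ := by
      rw [h1, h2, mul_assoc, ← J3.P_append, List.take_append_drop]
      exact hg
    refine ⟨w1.prod φ, ?_, ?_⟩
    · rw [J3.len_reduced]
      change (w.toList.take k).length = k
      rw [List.length_take]
      rw [hN] at hk
      omega
    · have : (w1.prod φ)⁻¹ * g = w2.prod φ := by rw [h3]; group
      rw [this, J3.len_reduced]
      change (w.toList.drop k).length + k = _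
      rw [List.length_drop, hN]
      rw [hN] at hk
      omega
  let Q : PL (HNNExtension G A B φ) :=
    { len := fun g => (J3.N d g).length
      len_one := by rw [J3.N_one]; rfl
      len_inv := hinv
      len_mul := by
        intro g h
        have h1 := hdiv g h⁻¹
        rw [inv_inv] at h1
        rw [h1]
        refine (J3.T_le _ _).trans ?_
        rw [J3.R_len, J3.R_len, hinv]
      fp' := by
        intro u v w z
        simp only [hd2]
        exact J3.T_four _ _ _ _
      step := hstep }
  have hQ : ∀ g, Q.len g = (J3.N d g).length := fun _ => rfl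
  refine ⟨Q, ?_, ?_, ?_, ?_, ?_⟩
  · intro g
    rw [hQ]
    exact J3.len_zero_iff d g
  · intro w
    rw [hQ]
    exact J3.len_reduced d w
  · intro g
    refine ⟨(g • (HNNExtension.NormalWord.empty : HNNExtension.NormalWord d)).toReducedWord, ?_⟩
    rw [HNNExtension.NormalWord.prod_smul, HNNExtension.NormalWord.prod_empty, mul_one]
  · intro g h
    rw [hQ, hQ, hQ]
    have h1 := J3.par_eq d (g * h)
    rw [map_mul, J3.par_eq d g, J3.par_eq d h, ← ofAdd_add] at h1
    have h2 : (((J3.N d g).length : ℕ) : ZMod 2) + (((J3.N d h).length : ℕ) : ZMod 2) =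
      (((J3.N d (g * h)).length : ℕ) : ZMod 2) := Multiplicative.ofAdd.injective h1
    rw [← ZMod.natCast_eq_zero_iff_even]
    push_cast
    rw [← h2]
    generalize (((J3.N d g).length : ℕ) : ZMod 2) = x
    generalize (((J3.N d h).length : ℕ) : ZMod 2) = y
    revert x y
    decide
  · intro g hg h2
    rw [hQ] at hg h2
    rw [J3.len_zero_iff] at h2
    obtain ⟨b, hb⟩ := h2
    obtain ⟨a, ha⟩ := J3.exists_head d g
    obtain ⟨x, hx⟩ := List.length_eq_one_iff.1 hg
    rw [hx, J3.P_cons, J3.P_nil, mul_one] at ha
    have h3 : J3.chi φ g = Multiplicative.ofAdd (x.1 : ℤ) := by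
      rw [ha, map_mul, map_mul, map_zpow]
      simp only [J3.chi, HNNExtension.lift_t, HNNExtension.lift_of, MonoidHom.one_apply, mul_one,
        one_mul]
      rw [← ofAdd_zsmul]
      simp
    have h4 : J3.chi φ (g * g) = 1 := by
      rw [← hb]; simp [J3.chi]
    rw [map_mul, h3, ← ofAdd_add] at h4
    have h5 : (x.1 : ℤ) + (x.1 : ℤ) = 0 := Multiplicative.ofAdd.injective h4
    rcases Int.units_eq_one_or x.1 with h | h
    · rw [h] at h5; simp at h5
    · rw [h] at h5; simp at h5

end Pool.Agent.TH95.NR
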