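import Pool.Agent.TH95.NR.Defs

/-!
# Acylindricity of an HNN extension with malnormal associated subgroups
-/

set_option autoImplicit false

namespace Pool.Agent.TH95.NR

open Pool.Agent.TH54.BU

namespace J4

open HNNExtension HNNExtension.NormalWord

theorem pref {H : Type*} [Group H] (P : PL H) (g u v v' : H) (huv : u = v * v')
    (hl : P.len v + P.len v' = P.len u) (hg : P.len g = 0) (hgu : P.len (u⁻¹ * g * u) = 0) :
    P.len (v⁻¹ * g * v) = 0 := by
  have h1 := P.fp' v (g * v) 1 u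
  have e1 : v⁻¹ * (g * v) = v⁻¹ * g * v := by group
  have e2 : (1 : H)⁻¹ * u = u := by group
  have e3 : v⁻¹ * 1 = v⁻¹ := by group
  have e4 : (g * v)⁻¹ * u = v' * (u⁻¹ * g * u)⁻¹ := by rw [huv]; group
  have e5 : v⁻¹ * u = v' := by rw [huv]; group
  have e6 : (g * v)⁻¹ * 1 = v⁻¹ * g⁻¹ := by group
  rw [e1, e2, e3, e4, e5, e6, P.len_inv v] at h1
  have h2 := P.len_mul v' (u⁻¹ * g * u)⁻¹
  have h3 := P.len_mul v⁻¹ g⁻¹
  rw [P.len_inv] at h2
  rw [P.len_inv, P.len_inv] at h3
  omega

variable {G : Type} [Group G] {A B : Subgroup G} {φ : A ≃* B}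

theorem conj_t (P : PL (HNNExtension G A B φ))
    (hw : ∀ w : HNNExtension.NormalWord.ReducedWord G A B, P.len (w.prod φ) = w.toList.length)
    (e : ℤˣ) (x : G)
    (h : P.len ((HNNExtension.t ^ (e : ℤ))⁻¹ * HNNExtension.of x * HNNExtension.t ^ (e : ℤ)) = 0) :
    ∃ k : G, (HNNExtension.t ^ (e : ℤ))⁻¹ * (HNNExtension.of x : HNNExtension G A B φ) *
        HNNExtension.t ^ (e : ℤ) = HNNExtension.of k ∧
      (e = 1 → ∃ hx : x ∈ B, k = (φ.symm ⟨x, hx⟩ : G)) ∧
      (e = -1 → ∃ hx : x ∈ A, k = (φ ⟨x, hx⟩ : G)) := by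
  rcases Int.units_eq_one_or e with rfl | rfl
  · have hx : x ∈ B := by
      by_contra hn
      let w : HNNExtension.NormalWord.ReducedWord G A B :=
        ⟨1, [(-1, x), (1, 1)], by
          simp only [List.isChain_cons_cons, List.isChain_singleton, and_true]
          intro h'
          exact absurd h' hn⟩
      have h1 := hw w
      have h2 : w.prod φ = (HNNExtension.t ^ ((1 : ℤˣ) : ℤ))⁻¹ * HNNExtension.of x *
          HNNExtension.t ^ ((1 : ℤˣ) : ℤ) := by
        simp [w, HNNExtension.NormalWord.ReducedWord.prod]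
      rw [h2, h] at h1
      simp [w] at h1
    refine ⟨φ.symm ⟨x, hx⟩, ?_, fun _ => ⟨hx, rfl⟩, fun h' => ?_⟩
    · have := equiv_symm_eq_conj (φ := φ) ⟨x, hx⟩
      rw [this]; simp
    · exact absurd h' (by decide)
  · have hx : x ∈ A := by
      by_contra hn
      let w : HNNExtension.NormalWord.ReducedWord G A B :=
        ⟨1, [(1, x), (-1, 1)], by
          simp only [List.isChain_cons_cons, List.isChain_singleton, and_true]
          intro h'
          exact absurd h' hn⟩
      have h1 := hw w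
      have h2 : w.prod φ = (HNNExtension.t ^ ((-1 : ℤˣ) : ℤ))⁻¹ * HNNExtension.of x *
          HNNExtension.t ^ ((-1 : ℤˣ) : ℤ) := by
        simp [w, HNNExtension.NormalWord.ReducedWord.prod]
      rw [h2, h] at h1
      simp [w] at h1
    refine ⟨φ ⟨x, hx⟩, ?_, fun h' => ?_, fun _ => ⟨hx, rfl⟩⟩
    · have := equiv_eq_conj (φ := φ) ⟨x, hx⟩
      rw [this]; simp
    · exact absurd h' (by decide)

end J4

theorem hnn_ac (G : Type) [Group G] (A B : Subgroup G) (φ : A ≃* B)
    (hA : ∀ a ∈ A, ∀ q, q ∉ A → q⁻¹ * a * q ∈ A → a = 1)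
    (hB : ∀ b ∈ B, ∀ q, q ∉ B → q⁻¹ * b * q ∈ B → b = 1)
    (hc : ∀ a ∈ A, ∀ (q r : G) (h : q⁻¹ * a * q ∈ B),
      r⁻¹ * (φ.symm ⟨q⁻¹ * a * q, h⟩ : G) * r ∈ B → a = 1)
    (hd : ∀ b ∈ B, ∀ (q r : G) (h : q⁻¹ * b * q ∈ A),
      r⁻¹ * (φ ⟨q⁻¹ * b * q, h⟩ : G) * r ∈ A → b = 1)
    (P : PL (HNNExtension G A B φ))
    (h0 : ∀ g, P.len g = 0 ↔ g ∈ (HNNExtension.of : G →* HNNExtension G A B φ).range)
    (hw : ∀ w : HNNExtension.NormalWord.ReducedWord G A B, P.len (w.prod φ) = w.toList.length)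
    (hex : ∀ g, ∃ w : HNNExtension.NormalWord.ReducedWord G A B, w.prod φ = g) :
    ∀ u g : HNNExtension G A B φ, P.len g = 0 → P.len (u⁻¹ * g * u) = 0 → 3 ≤ P.len u →
      g = 1 := by
  intro u g hg hgu hu
  obtain ⟨w, rfl⟩ := hex u
  rw [hw] at hu
  obtain ⟨g0, rfl⟩ := (h0 g).1 hg
  rcases w with ⟨x0, l, hl⟩
  match l, hl, hu, hgu with
  | (e1, x1) :: (e2, x2) :: (e3, x3) :: l, hl, hu, hgu =>
    have hl1 := List.isChain_cons_cons.1 hl
    have hl2 := List.isChain_cons_cons.1 hl1.2
    have c12 : x1 ∈ HNNExtension.toSubgroup A B e1 → e1 = e2 := hl1.1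
    have c23 : x2 ∈ HNNExtension.toSubgroup A B e2 → e2 = e3 := hl2.1
    have hl3 := hl2.2
    -- prefixes
    let T1 : HNNExtension G A B φ := HNNExtension.t ^ (e1 : ℤ)
    let T2 : HNNExtension G A B φ := HNNExtension.t ^ (e2 : ℤ)
    let T3 : HNNExtension G A B φ := HNNExtension.t ^ (e3 : ℤ)
    let v1 : HNNExtension.NormalWord.ReducedWord G A B := ⟨x0, [(e1, 1)], by simp⟩
    let r1 : HNNExtension.NormalWord.ReducedWord G A B := ⟨x1, (e2, x2) :: (e3, x3) :: l, hl1.2⟩
    let v2 : HNNExtension.NormalWord.ReducedWord G A B := ⟨x0, [(e1, x1), (e2, 1)], by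
      simp only [List.isChain_cons_cons, List.isChain_singleton, and_true]; exact c12⟩
    let r2 : HNNExtension.NormalWord.ReducedWord G A B := ⟨x2, (e3, x3) :: l, hl3⟩
    let v3 : HNNExtension.NormalWord.ReducedWord G A B := ⟨x0, [(e1, x1), (e2, x2), (e3, 1)], by
      simp only [List.isChain_cons_cons, List.isChain_singleton, and_true]; exact ⟨c12, c23⟩⟩
    let r3 : HNNExtension.NormalWord.ReducedWord G A B := ⟨x3, l, hl3.tail⟩
    have p1 : v1.prod φ = HNNExtension.of x0 * T1 := by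
      simp [v1, T1, HNNExtension.NormalWord.ReducedWord.prod]
    have p2 : v2.prod φ = HNNExtension.of x0 * T1 * HNNExtension.of x1 * T2 := by
      simp [v2, T1, T2, HNNExtension.NormalWord.ReducedWord.prod, mul_assoc]
    have p3 : v3.prod φ = HNNExtension.of x0 * T1 * HNNExtension.of x1 * T2 *
        HNNExtension.of x2 * T3 := by
      simp [v3, T1, T2, T3, HNNExtension.NormalWord.ReducedWord.prod, mul_assoc]
    have q1 : HNNExtension.NormalWord.ReducedWord.prod φ ⟨x0, (e1, x1) :: (e2, x2) :: (e3, x3) :: l,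
        hl⟩ = v1.prod φ * r1.prod φ := by
      simp [v1, r1, HNNExtension.NormalWord.ReducedWord.prod, mul_assoc]
    have q2 : HNNExtension.NormalWord.ReducedWord.prod φ ⟨x0, (e1, x1) :: (e2, x2) :: (e3, x3) :: l,
        hl⟩ = v2.prod φ * r2.prod φ := by
      simp [v2, r2, HNNExtension.NormalWord.ReducedWord.prod, mul_assoc]
    have q3 : HNNExtension.NormalWord.ReducedWord.prod φ ⟨x0, (e1, x1) :: (e2, x2) :: (e3, x3) :: l,
        hl⟩ = v3.prod φ * r3.prod φ := by
      simp [v3, r3, HNNExtension.NormalWord.ReducedWord.prod, mul_assoc]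
    have s1 := J4.pref P _ _ _ _ q1 (by rw [hw, hw, hw]; simp [v1, r1]; omega) hg hgu
    have s2 := J4.pref P _ _ _ _ q2 (by rw [hw, hw, hw]; simp [v2, r2]; omega) hg hgu
    have s3 := J4.pref P _ _ _ _ q3 (by rw [hw, hw, hw]; simp [v3, r3]; omega) hg hgu
    rw [p1] at s1
    rw [p2] at s2
    rw [p3] at s3
    have t1 : (HNNExtension.of x0 * T1)⁻¹ * HNNExtension.of g0 * (HNNExtension.of x0 * T1) =
        (T1)⁻¹ * HNNExtension.of (x0⁻¹ * g0 * x0) * T1 := by
      simp [mul_assoc]
    rw [t1] at s1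
    obtain ⟨k1, hk1, hk1a, hk1b⟩ := J4.conj_t P hw e1 _ s1
    have t2 : (HNNExtension.of x0 * T1 * HNNExtension.of x1 * T2)⁻¹ * HNNExtension.of g0 *
        (HNNExtension.of x0 * T1 * HNNExtension.of x1 * T2) =
        (T2)⁻¹ * HNNExtension.of (x1⁻¹ * k1 * x1) * T2 := by
      rw [map_mul HNNExtension.of, map_mul HNNExtension.of, ← hk1]
      simp [mul_assoc, T1]
    rw [t2] at s2
    obtain ⟨k2, hk2, hk2a, hk2b⟩ := J4.conj_t P hw e2 _ s2
    have t3 : (HNNExtension.of x0 * T1 * HNNExtension.of x1 * T2 * HNNExtension.of x2 * T3)⁻¹ *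
        HNNExtension.of g0 *
        (HNNExtension.of x0 * T1 * HNNExtension.of x1 * T2 * HNNExtension.of x2 * T3) =
        (T3)⁻¹ * HNNExtension.of (x2⁻¹ * k2 * x2) * T3 := by
      have : HNNExtension.of (x2⁻¹ * k2 * x2) = (HNNExtension.of x2)⁻¹ *
        (T2⁻¹ * HNNExtension.of (x1⁻¹ * k1 * x1) * T2) * (HNNExtension.of x2 :
          HNNExtension G A B φ) := by
        rw [map_mul HNNExtension.of, map_mul HNNExtension.of, ← hk2]
        simp [T2]
      rw [this, ← t2]
      group
    rw [t3] at s3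
    obtain ⟨k3, hk3, hk3a, hk3b⟩ := J4.conj_t P hw e3 _ s3
    -- triviality of `g`
    have fin1 : k1 = 1 → (HNNExtension.of g0 : HNNExtension G A B φ) = 1 := by
      intro h
      rw [h, map_one] at hk1
      have h' := t1.trans hk1
      have : (HNNExtension.of g0 : HNNExtension G A B φ) = (HNNExtension.of x0 * T1) *
        ((HNNExtension.of x0 * T1)⁻¹ * HNNExtension.of g0 * (HNNExtension.of x0 * T1)) *
        (HNNExtension.of x0 * T1)⁻¹ := by group
      rw [this, h']; group
    have fin2 : k2 = 1 → (HNNExtension.of g0 : HNNExtension G A B φ) = 1 := by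
      intro h
      rw [h, map_one] at hk2
      have h' := t2.trans hk2
      have : (HNNExtension.of g0 : HNNExtension G A B φ) =
        (HNNExtension.of x0 * T1 * HNNExtension.of x1 * T2) *
        ((HNNExtension.of x0 * T1 * HNNExtension.of x1 * T2)⁻¹ * HNNExtension.of g0 *
          (HNNExtension.of x0 * T1 * HNNExtension.of x1 * T2)) *
        (HNNExtension.of x0 * T1 * HNNExtension.of x1 * T2)⁻¹ := by group
      rw [this, h']; group
    -- where the elements lie
    have m1A : e1 = 1 → k1 ∈ A := by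
      intro h; obtain ⟨hx, e⟩ := hk1a h; rw [e]; exact SetLike.coe_mem _
    have m1B : e1 = -1 → k1 ∈ B := by
      intro h; obtain ⟨hx, e⟩ := hk1b h; rw [e]; exact SetLike.coe_mem _
    have m2A : e2 = 1 → k2 ∈ A := by
      intro h; obtain ⟨hx, e⟩ := hk2a h; rw [e]; exact SetLike.coe_mem _
    have m2B : e2 = -1 → k2 ∈ B := by
      intro h; obtain ⟨hx, e⟩ := hk2b h; rw [e]; exact SetLike.coe_mem _
    rcases Int.units_eq_one_or e1 with h1 | h1
    · rcases Int.units_eq_one_or e2 with h2 | h2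
      · rcases Int.units_eq_one_or e3 with h3 | h3
        · -- 1, 1, 1
          apply fin1
          obtain ⟨hx2, hk2'⟩ := hk2a h2
          obtain ⟨hx3, -⟩ := hk3a h3
          rw [hk2'] at hx3
          exact hc k1 (m1A h1) x1 x2 hx2 hx3
        · -- 1, 1, -1
          apply fin2
          obtain ⟨hx3, -⟩ := hk3b h3
          refine hA k2 (m2A h2) x2 ?_ hx3
          intro hx
          have := c23 (by rw [h2]; exact hx)
          rw [h2, h3] at this
          exact absurd this (by decide)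
      · -- 1, -1
        apply fin1
        obtain ⟨hx2, -⟩ := hk2b h2
        refine hA k1 (m1A h1) x1 ?_ hx2
        intro hx
        have := c12 (by rw [h1]; exact hx)
        rw [h1, h2] at this
        exact absurd this (by decide)
    · rcases Int.units_eq_one_or e2 with h2 | h2
      · -- -1, 1
        apply fin1
        obtain ⟨hx2, -⟩ := hk2a h2
        refine hB k1 (m1B h1) x1 ?_ hx2
        intro hx
        have := c12 (by rw [h1]; exact hx)
        rw [h1, h2] at this
        exact absurd this (by decide)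
      · rcases Int.units_eq_one_or e3 with h3 | h3
        · -- -1, -1, 1
          apply fin2
          obtain ⟨hx3, -⟩ := hk3a h3
          refine hB k2 (m2B h2) x2 ?_ hx3
          intro hx
          have := c23 (by rw [h2]; exact hx)
          rw [h2, h3] at this
          exact absurd this (by decide)
        · -- -1, -1, -1
          apply fin1
          obtain ⟨hx2, hk2'⟩ := hk2b h2
          obtain ⟨hx3, -⟩ := hk3b h3
          rw [hk2'] at hx3
          exact hd k1 (m1B h1) x1 x2 hx2 hx3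

end Pool.Agent.TH95.NR
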