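import Pool.Agent.TH95.NR.Defs
import Pool.Agent.TH54.BU.Local

/-!
# A tree pseudo-length on a group gives a hyperbolic length (job 2821, helper993)
-/

set_option autoImplicit false

namespace Pool.Agent.TH95.NR.J1

open Pool.Agent.TH54.BU

variable {G : Type*} [Group G] (P : PL G)

/-- the left invariant pseudo-distance -/
def d (u v : G) : ℕ := P.len (u⁻¹ * v)

theorem d_self (u : G) : d P u u = 0 := by simp [d, P.len_one]

theorem d_comm (u v : G) : d P u v = d P v u := by
  unfold d
  rw [← P.len_inv]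
  congr 1
  group

theorem d_tri (u v w : G) : d P u w ≤ d P u v + d P v w := by
  unfold d
  have := P.len_mul (u⁻¹ * v) (v⁻¹ * w)
  rwa [show u⁻¹ * v * (v⁻¹ * w) = u⁻¹ * w by group] at this

theorem d_mul (g u v : G) : d P (g * u) (g * v) = d P u v := by
  unfold d
  congr 1
  group

theorem d_one (g : G) : d P 1 g = P.len g := by simp [d]

theorem fpor (u v w z : G) :
    d P u v + d P w z ≤ d P u w + d P v z ∨ d P u v + d P w z ≤ d P u z + d P v w := by
  have h : d P u v + d P w z ≤ max (d P u w + d P v z) (d P u z + d P v w) := P.fp' u v w z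
  rcases le_total (d P u w + d P v z) (d P u z + d P v w) with h' | h'
  · right; rwa [max_eq_right h'] at h
  · left; rwa [max_eq_left h'] at h

/-- points on geodesics -/
theorem between (u v : G) (k : ℕ) (hk : k ≤ d P u v) :
    ∃ p, d P u p = k ∧ d P p v + k = d P u v := by
  obtain ⟨h, h1, h2⟩ := P.step (u⁻¹ * v) k hk
  refine ⟨u * h, ?_, ?_⟩
  · unfold d
    rw [show u⁻¹ * (u * h) = h by group, h1]
  · unfold d
    rw [show (u * h)⁻¹ * v = h⁻¹ * (u⁻¹ * v) by group, h2]

/-- one-sided local to global estimate -/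
theorem lg_aux (x : ℕ → G) (n : ℕ)
    (h1 : ∀ i, i + 2 ≤ n → d P (x i) (x (i + 1)) + d P (x (i + 1)) (x (i + 2)) ≤
      d P (x i) (x (i + 2)))
    (h2 : ∀ i, i < n → 1 ≤ d P (x i) (x (i + 1))) (m : ℕ) (hm : m + 1 ≤ n) :
    d P (x 0) (x m) + d P (x m) (x (m + 1)) ≤ d P (x 0) (x (m + 1)) := by
  induction m with
  | zero =>
    rw [d_self]
    omega
  | succ m ih =>
    have i1 := ih (by omega)
    have i2 := h1 m (by omega)
    have i3 := h2 m (by omega)
    have i4 := fpor P (x m) (x (m + 2)) (x 0) (x (m + 1))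
    rw [d_comm P (x m) (x 0), d_comm P (x (m + 2)) (x (m + 1)),
      d_comm P (x (m + 2)) (x 0)] at i4
    rw [show m + 1 + 1 = m + 2 from rfl]
    omega

/-- transport of a geodesic triple -/
theorem tr1 {a b a' x : G} {r : ℕ} (h : d P a x + d P x b ≤ d P a b)
    (hr : d P a a' ≤ r) (hl : 2 * r < 2 * d P a x) :
    d P a' x + d P x b ≤ d P a' b := by
  have i1 := fpor P a b a' x
  have i2 := d_tri P a a' x
  rw [d_comm P b x, d_comm P b a'] at i1
  omega

/-- a translate of a point between `a` and `b` by an element which moves `a` and `b` little -/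
theorem tr2 {a b w t : G} {r : ℕ} (ht : d P a t + d P t b = d P a b)
    (ha : d P a (w * a) ≤ r) (hb : d P b (w * b) ≤ r) (h1 : 2 * r < 2 * d P a t)
    (h2 : 2 * r < 2 * d P t b) :
    d P a (w * t) + d P (w * t) b ≤ d P a b := by
  have e1 : d P (w * a) (w * t) = d P a t := d_mul P _ _ _
  have e2 : d P (w * t) (w * b) = d P t b := d_mul P _ _ _
  have e3 : d P (w * a) (w * b) = d P a b := d_mul P _ _ _
  have i1 := tr1 P (a := w * a) (b := w * b) (a' := a) (x := w * t) (r := r)
    (by omega) (by rw [d_comm]; exact ha) (by omega)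
  have i2 := tr1 P (a := w * b) (b := a) (a' := b) (x := w * t) (r := r)
    (by rw [d_comm P (w * b) (w * t), d_comm P (w * t) a, d_comm P (w * b) a]; omega)
    (by rw [d_comm]; exact hb) (by rw [d_comm P (w * b) (w * t)]; omega)
  rw [d_comm P b (w * t), d_comm P (w * t) a, d_comm P b a] at i2
  omega

/-- two points of a geodesic from `a` to `b` -/
theorem nr {a b x y : G} (hx : d P a x + d P x b ≤ d P a b)
    (hy : d P a y + d P y b ≤ d P a b) :
    d P x y + d P a y ≤ d P a x ∨ d P x y + d P a x ≤ d P a y := by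
  have i1 := fpor P a b x y
  rw [d_comm P b y, d_comm P b x] at i1
  omega

/-- the shift lemma -/
theorem sh {a a' x y : G} (h1 : d P a a' + d P x y < d P a x + d P a' y)
    (h2 : d P a a' + d P x y < d P a y + d P a' x) :
    d P a x + d P a' y ≤ d P a y + d P a' x ∧
      d P a y + d P a' x ≤ d P a x + d P a' y := by
  have i1 := fpor P a x a' y
  have i2 := fpor P a y a' x
  rw [d_comm P x a'] at i1
  rw [d_comm P y x, d_comm P y a'] at i2
  omega

theorem disp_mul (a u v : G) : d P a (u * v * a) ≤ d P a (u * a) + d P a (v * a) := by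
  have h := d_tri P a (u * a) (u * v * a)
  rw [mul_assoc, d_mul, ← mul_assoc] at h
  exact h

theorem disp_inv (a u : G) : d P a (u⁻¹ * a) = d P a (u * a) := by
  have h := d_mul P u a (u⁻¹ * a)
  rw [mul_inv_cancel_left, d_comm] at h
  exact h.symm

/-- moving an element to the other side -/
theorem mv (a g x : G) : d P a (g * x) = d P (g⁻¹ * a) x := by
  have h := d_mul P g (g⁻¹ * a) x
  rw [mul_inv_cancel_left] at h
  exact h

theorem cm {a b g h t : G} {R : ℕ} (ha : d P a (g * a) ≤ R)
    (hb : d P b (g * b) ≤ R) (ha' : d P a (h * a) ≤ R) (hb' : d P b (h * b) ≤ R)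
    (ht : d P a t + d P t b = d P a b) (h1 : 4 * R + 1 ≤ d P a t)
    (h2 : 4 * R + 1 ≤ d P t b) :
    d P t (g * h * g⁻¹ * h⁻¹ * t) = 0 := by
  have iga := disp_inv P a g
  have igb := disp_inv P b g
  have iha := disp_inv P a h
  have ihb := disp_inv P b h
  -- displacements
  have a1 := disp_mul P a g⁻¹ h⁻¹
  have b1 := disp_mul P b g⁻¹ h⁻¹
  have a2 := disp_mul P a (h * g⁻¹) h⁻¹
  have b2 := disp_mul P b (h * g⁻¹) h⁻¹
  have a3 := disp_mul P a h g⁻¹
  have b3 := disp_mul P b h g⁻¹
  have a4 := disp_mul P a (g * h * g⁻¹) h⁻¹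
  have b4 := disp_mul P b (g * h * g⁻¹) h⁻¹
  have a5 := disp_mul P a (g * h) g⁻¹
  have b5 := disp_mul P b (g * h) g⁻¹
  have a6 := disp_mul P a g h
  have b6 := disp_mul P b g h
  have px := tr2 P (w := g⁻¹ * h⁻¹) (r := 4 * R) ht (by omega) (by omega) (by omega) (by omega)
  have pgx := tr2 P (w := h⁻¹) (r := 4 * R) ht (by omega) (by omega) (by omega) (by omega)
  have phx := tr2 P (w := h * g⁻¹ * h⁻¹) (r := 4 * R) ht (by omega) (by omega) (by omega) (by omega)
  have pghx := tr2 P (w := g * h * g⁻¹ * h⁻¹) (r := 4 * R) ht (by omega) (by omega) (by omega)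
    (by omega)
  have pt : d P a t + d P t b ≤ d P a b := by omega
  have nhx := nr P px phx
  have ngx := nr P px pgx
  have nfin := nr P pt pghx
  -- moving
  have m1 : d P a (h⁻¹ * t) = d P (g⁻¹ * a) (g⁻¹ * h⁻¹ * t) := by
    rw [mul_assoc, d_mul]
  have m2 : d P a (g * h * g⁻¹ * h⁻¹ * t) = d P (g⁻¹ * a) (h * g⁻¹ * h⁻¹ * t) := by
    rw [← mv]
    congr 1
    group
  have m3 : d P a (h * g⁻¹ * h⁻¹ * t) = d P (h⁻¹ * a) (g⁻¹ * h⁻¹ * t) := by
    rw [← mv]
    congr 1
    group
  have m4 : d P a t = d P (h⁻¹ * a) (h⁻¹ * t) := by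
    rw [d_mul]
  -- distances to `a`
  have l1 : d P a t ≤ d P a (g⁻¹ * h⁻¹ * t) + 2 * R := by
    have e := mv P a (g⁻¹ * h⁻¹) t
    have e2 := disp_inv P a (g⁻¹ * h⁻¹)
    have e3 := d_tri P a ((g⁻¹ * h⁻¹)⁻¹ * a) t
    omega
  have l2 : d P a t ≤ d P a (h⁻¹ * t) + R := by
    have e := mv P a h⁻¹ t
    have e2 := disp_inv P a h⁻¹
    have e3 := d_tri P a ((h⁻¹)⁻¹ * a) t
    omega
  have l3 : d P a t ≤ d P a (h * g⁻¹ * h⁻¹ * t) + 3 * R := by
    have e := mv P a (h * g⁻¹ * h⁻¹) t
    have e2 := disp_inv P a (h * g⁻¹ * h⁻¹)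
    have e3 := d_tri P a ((h * g⁻¹ * h⁻¹)⁻¹ * a) t
    omega
  -- triangle inequalities for the shifts
  have t1 := d_tri P a (h⁻¹ * a) (g⁻¹ * h⁻¹ * t)
  have t2 := d_tri P (h⁻¹ * a) a (g⁻¹ * h⁻¹ * t)
  rw [d_comm P (h⁻¹ * a) a] at t2
  have t3 := d_tri P a (g⁻¹ * a) (g⁻¹ * h⁻¹ * t)
  have t4 := d_tri P (g⁻¹ * a) a (g⁻¹ * h⁻¹ * t)
  rw [d_comm P (g⁻¹ * a) a] at t4
  have s1 := sh P (a := a) (a' := g⁻¹ * a) (x := g⁻¹ * h⁻¹ * t) (y := h * g⁻¹ * h⁻¹ * t)
    (by omega) (by omega)
  have s2 := sh P (a := a) (a' := h⁻¹ * a) (x := g⁻¹ * h⁻¹ * t) (y := h⁻¹ * t)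
    (by omega) (by omega)
  omega

/-! ### The dichotomy -/

theorem len_d (g : G) : P.len g = d P 1 g := (d_one P g).symm

/-- an element of minimal positive length in its conjugacy class is a translation -/
theorem minimal (par : ∀ g h : G, Even (P.len (g * h) + P.len g + P.len h))
    (noinv : ∀ g : G, P.len g = 1 → P.len (g * g) ≠ 0) (g : G) (h0 : 0 < P.len g)
    (hmin : ∀ u : G, P.len g ≤ P.len (u⁻¹ * g * u)) : P.len (g * g) = 2 * P.len g := by
  set τ := P.len g with hτ
  have hle := P.len_mul g g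
  have hpar := par g g
  rw [← hτ] at hle hpar
  have hev : Even (P.len (g * g)) := by
    obtain ⟨k, hk⟩ := hpar
    exact ⟨k - τ, by omega⟩
  obtain ⟨e, he⟩ := hev
  set c := τ - e with hc
  have hce : c + e = τ := by omega
  obtain ⟨h, hh1, hh2⟩ := P.step g c (by omega)
  rw [← hτ] at hh2
  -- distances
  have d1 : d P 1 h = c := by rw [d_one]; exact hh1
  have d2 : d P h g = e := by
    have : d P h g = P.len (h⁻¹ * g) := rfl
    omega
  have d3 : d P 1 g = τ := by rw [d_one]
  have d4 : d P 1 g⁻¹ = τ := by rw [d_one, P.len_inv]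
  have d5 : d P g⁻¹ g = 2 * e := by
    have : d P g⁻¹ g = P.len (g * g) := by
      unfold d
      rw [inv_inv]
    omega
  have d6 : d P h g⁻¹ = e := by
    have i1 := fpor P 1 g h g⁻¹
    have i2 := d_tri P 1 h g⁻¹
    rw [d_comm P g g⁻¹, d_comm P g h] at i1
    omega
  have d7 : d P g (g * h) = c := by
    have := d_mul P g 1 h
    rw [mul_one] at this
    omega
  have d8 : d P (g * h) 1 = e := by
    have := d_mul P g h g⁻¹
    rw [mul_inv_cancel] at this
    omega
  have n1 := nr P (a := 1) (b := g) (x := h) (y := g * h) (by omega)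
    (by rw [d_comm P 1, d_comm P (g * h) g]; omega)
  rw [d_comm P 1 (g * h)] at n1
  have m1 : d P h (g * h) = P.len (h⁻¹ * g * h) := by
    unfold d
    rw [mul_assoc]
  have m2 := hmin h
  rw [← m1] at m2
  rcases Nat.eq_zero_or_pos c with hc0 | hc0
  · omega
  · exfalso
    -- now `c = τ` and `e = 0`
    have he0 : e = 0 := by omega
    obtain ⟨k, hk1, hk2⟩ := P.step g (τ / 2) (by omega)
    rw [← hτ] at hk2
    have f1 : d P 1 k = τ / 2 := by rw [d_one]; exact hk1
    have f2 : d P k g = τ - τ / 2 := by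
      have : d P k g = P.len (k⁻¹ * g) := rfl
      omega
    have f3 : d P g (g * k) = τ / 2 := by
      have := d_mul P g 1 k
      rw [mul_one] at this
      omega
    have f4 : d P (g * k) (g * g) = τ - τ / 2 := by
      rw [d_mul]
      exact f2
    have f5 : d P 1 (g * g) = 0 := by
      rw [d_one]
      omega
    have f6 : d P 1 (g * k) ≤ τ - τ / 2 := by
      have i1 := d_tri P 1 (g * g) (g * k)
      rw [d_comm P (g * g) (g * k)] at i1
      omega
    have n2 := nr P (a := 1) (b := g) (x := k) (y := g * k) (by omega)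
      (by rw [d_comm P (g * k) g]; omega)
    have f7 : d P 1 g ≤ d P 1 (g * k) + d P (g * k) g := d_tri P 1 (g * k) g
    rw [d_comm P (g * k) g] at f7
    have m3 : d P k (g * k) = P.len (k⁻¹ * g * k) := by
      unfold d
      rw [mul_assoc]
    have m4 := hmin k
    rw [← m3] at m4
    have hτ1 : τ = 1 := by omega
    apply noinv g (by omega)
    omega

/-- the powers of a translation -/
theorem pow_len (g : G) (h0 : 0 < P.len g) (h2 : P.len (g * g) = 2 * P.len g) (m : ℕ) :
    m ≤ P.len (g ^ m) := by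
  have e0 : ∀ i, d P (g ^ i) (g ^ (i + 1)) = P.len g := by
    intro i
    unfold d
    rw [pow_succ, inv_mul_cancel_left]
  have e1 : ∀ i, d P (g ^ i) (g ^ (i + 2)) = 2 * P.len g := by
    intro i
    unfold d
    rw [pow_add, inv_mul_cancel_left, pow_two, h2]
  have key : ∀ m, m ≤ d P (g ^ 0) (g ^ m) := by
    intro m
    induction m with
    | zero => exact Nat.zero_le _
    | succ m ih =>
      have := lg_aux P (fun i => g ^ i) (m + 1)
        (by
          intro i _
          have j1 := e0 i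
          have j2 := e0 (i + 1)
          have j3 := e1 i
          rw [show i + 1 + 1 = i + 2 from rfl] at j2
          omega)
        (by
          intro i _
          have j1 := e0 i
          omega) m le_rfl
      have j := e0 m
      omega
  have := key m
  rw [pow_zero, d_one] at this
  exact this

theorem dichotomy (par : ∀ g h : G, Even (P.len (g * h) + P.len g + P.len h))
    (noinv : ∀ g : G, P.len g = 1 → P.len (g * g) ≠ 0) (g : G) :
    (∃ u : G, P.len (u⁻¹ * g * u) = 0) ∨ ∀ m : ℕ, m ≤ P.len (g ^ m) := by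
  classical
  have hex : ∃ n, ∃ u : G, P.len (u⁻¹ * g * u) = n := ⟨_, 1, rfl⟩
  obtain ⟨u, hu⟩ := Nat.find_spec hex
  have hmin : ∀ v : G, P.len (u⁻¹ * g * u) ≤ P.len (v⁻¹ * (u⁻¹ * g * u) * v) := by
    intro v
    rw [hu]
    apply Nat.find_min' hex
    refine ⟨u * v, ?_⟩
    congr 1
    group
  rcases Nat.eq_zero_or_pos (P.len (u⁻¹ * g * u)) with h0 | h0
  · exact Or.inl ⟨u, h0⟩
  · right
    intro m
    have h2 := minimal P par noinv (u⁻¹ * g * u) h0 hmin
    have h3 := pow_len P (u⁻¹ * g * u) h0 h2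
    by_contra hlt
    push Not at hlt
    set N := 2 * P.len u + 1 with hN
    have h4 := h3 (m * N)
    have h5 : (u⁻¹ * g * u) ^ (m * N) = u⁻¹ * (g ^ m) ^ N * u := by
      rw [← pow_mul]
      have := conj_pow (i := m * N) (a := u⁻¹) (b := g)
      rw [inv_inv] at this
      exact this
    rw [h5] at h4
    have h6 := P.len_mul (u⁻¹ * (g ^ m) ^ N) u
    have h7 := P.len_mul u⁻¹ ((g ^ m) ^ N)
    rw [P.len_inv] at h7
    have h8 : ∀ k, P.len ((g ^ m) ^ k) ≤ k * P.len (g ^ m) := by
      intro k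
      induction k with
      | zero => simp [P.len_one]
      | succ k ih =>
        rw [pow_succ]
        have := P.len_mul ((g ^ m) ^ k) (g ^ m)
        rw [Nat.succ_mul]
        omega
    have h9 := h8 N
    have h10 : N * P.len (g ^ m) + N ≤ m * N := by
      have : P.len (g ^ m) + 1 ≤ m := hlt
      nlinarith
    omega

/-! ### The length -/

open Classical in
/-- the length -/
noncomputable def GHl : GH G where
  len g := if g = 1 then 0 else max 1 (P.len g)
  D := 4
  len_one := by simp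
  eq_one g h := by
    by_contra hg
    rw [if_neg hg] at h
    omega
  len_inv g := by
    by_cases hg : g = 1
    · simp [hg]
    · have hg' : g⁻¹ ≠ 1 := fun h => hg (inv_eq_one.1 h)
      rw [if_neg hg, if_neg hg', P.len_inv]
  len_mul g h := by
    by_cases hg : g = 1
    · simp [hg]
    · by_cases hh : h = 1
      · simp [hh]
      · rw [if_neg hg, if_neg hh]
        have := P.len_mul g h
        split_ifs <;> omega
  fp' u v w z := by
    have key : ∀ x : G, (if x = 1 then 0 else max 1 (P.len x)) ≤ P.len x + 1 ∧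
        P.len x ≤ (if x = 1 then 0 else max 1 (P.len x)) := by
      intro x
      by_cases hx : x = 1
      · simp [hx, P.len_one]
      · rw [if_neg hx]
        omega
    have h := P.fp' u v w z
    have k1 := key (u⁻¹ * v)
    have k2 := key (w⁻¹ * z)
    have k3 := key (u⁻¹ * w)
    have k4 := key (v⁻¹ * z)
    have k5 := key (u⁻¹ * z)
    have k6 := key (v⁻¹ * w)
    generalize (if u⁻¹ * v = 1 then 0 else max 1 (P.len (u⁻¹ * v))) = a1 at *
    generalize (if w⁻¹ * z = 1 then 0 else max 1 (P.len (w⁻¹ * z))) = a2 at *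
    generalize (if u⁻¹ * w = 1 then 0 else max 1 (P.len (u⁻¹ * w))) = a3 at *
    generalize (if v⁻¹ * z = 1 then 0 else max 1 (P.len (v⁻¹ * z))) = a4 at *
    generalize (if u⁻¹ * z = 1 then 0 else max 1 (P.len (u⁻¹ * z))) = a5 at *
    generalize (if v⁻¹ * w = 1 then 0 else max 1 (P.len (v⁻¹ * w))) = a6 at *
    omega
  step g k hk := by
    by_cases hg : g = 1
    · rw [if_pos hg] at hk
      refine ⟨1, ?_, ?_⟩
      · rw [if_pos rfl]
        omega
      · rw [hg, inv_one, one_mul, if_pos rfl]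
        omega
    · rw [if_neg hg] at hk
      rcases Nat.eq_zero_or_pos k with h0 | h0
      · refine ⟨1, ?_, ?_⟩
        · rw [if_pos rfl]
          omega
        · rw [inv_one, one_mul, if_neg hg]
          omega
      · rcases hk.eq_or_lt with h1 | h1
        · refine ⟨g, ?_, ?_⟩
          · rw [if_neg hg]
            exact h1.symm
          · rw [inv_mul_cancel, if_pos rfl, if_neg hg, zero_add]
            exact h1
        · obtain ⟨h, hh1, hh2⟩ := P.step g k (by omega)
          have e1 : h ≠ 1 := by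
            rintro rfl
            rw [P.len_one] at hh1
            omega
          have e2 : h⁻¹ * g ≠ 1 := by
            intro h'
            rw [h', P.len_one] at hh2
            omega
          refine ⟨h, ?_, ?_⟩
          · rw [if_neg e1]
            omega
          · rw [if_neg e2, if_neg hg]
            omega

theorem le_GHl (g : G) : P.len g ≤ (GHl P).len g := by
  classical
  change P.len g ≤ if g = 1 then 0 else max 1 (P.len g)
  by_cases hg : g = 1
  · simp [hg, P.len_one]
  · rw [if_neg hg]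
    omega

theorem GHl_le (g : G) : (GHl P).len g ≤ max 1 (P.len g) := by
  classical
  change (if g = 1 then 0 else max 1 (P.len g)) ≤ max 1 (P.len g)
  by_cases hg : g = 1
  · simp [hg]
  · rw [if_neg hg]

/-! ### Acylindricity -/

/-- two consecutive points of a segment fixed by `g` -/
theorem two_pts (ac : ∀ u g : G, P.len g = 0 → P.len (u⁻¹ * g * u) = 0 → 3 ≤ P.len u → g = 1)
    {q g : G} {A : ℕ} (hq : 2 * A + 3 ≤ P.len q)
    (hfix : ∀ t : G, d P 1 t + d P t q = d P 1 q → A ≤ d P 1 t → A ≤ d P t q →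
      d P t (g * t) = 0) : g = 1 := by
  have hq1 : d P 1 q = P.len q := d_one P q
  obtain ⟨t, ht1, ht2⟩ := between P 1 q A (by omega)
  obtain ⟨s, hs1, hs2⟩ := between P t q 3 (by omega)
  have h1 := d_tri P 1 t s
  have h2 := d_tri P 1 s q
  have f1 := hfix t (by omega) (by omega) (by omega)
  have f2 := hfix s (by omega) (by omega) (by omega)
  have h3 := ac (t⁻¹ * s) (t⁻¹ * g * t)
    (by
      have : d P t (g * t) = P.len (t⁻¹ * g * t) := by
        unfold d
        rw [mul_assoc]
      omega)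
    (by
      have : d P s (g * s) = P.len (s⁻¹ * g * s) := by
        unfold d
        rw [mul_assoc]
      rw [show (t⁻¹ * s)⁻¹ * (t⁻¹ * g * t) * (t⁻¹ * s) = s⁻¹ * g * s by group]
      omega)
    (by
      have : d P t s = P.len (t⁻¹ * s) := rfl
      omega)
  have h4 : g = t * (t⁻¹ * g * t) * t⁻¹ := by group
  rw [h4, h3]
  group

/-- an elliptic element which moves `1` and `q` little fixes the middle part of the segment -/
theorem ell_fix {q g x t : G} {K : ℕ} (hx : P.len (x⁻¹ * g * x) = 0) (h1 : d P 1 (g * 1) ≤ K)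
    (hq : d P q (g * q) ≤ K) (ht : d P 1 t + d P t q = d P 1 q) (ht1 : K + 1 ≤ d P 1 t)
    (ht2 : K + 1 ≤ d P t q) : d P t (g * t) = 0 := by
  have hx' : d P x (g * x) = 0 := by
    have : d P x (g * x) = P.len (x⁻¹ * g * x) := by
      unfold d
      rw [mul_assoc]
    omega
  have main : ∀ a : G, d P a (g * a) ≤ K → K + 1 ≤ d P a t → d P a t + d P t x ≤ d P a x →
      d P t (g * t) = 0 := by
    intro a ha hat hax
    have e1 : d P (g * a) (g * t) = d P a t := d_mul P _ _ _
    have e2 : d P (g * t) (g * x) = d P t x := d_mul P _ _ _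
    have e3 : d P (g * a) (g * x) = d P a x := d_mul P _ _ _
    have i1 := d_tri P (g * t) (g * x) x
    have i2 := d_tri P (g * t) x (g * x)
    have i3 := d_tri P (g * a) (g * x) x
    have i4 := d_tri P (g * a) x (g * x)
    rw [d_comm P (g * x) x] at i1 i3
    have i5 := tr1 P (a := g * a) (b := x) (a' := a) (x := g * t) (r := K)
      (by omega) (by rw [d_comm]; exact ha) (by omega)
    have i6 := d_tri P a t x
    have i7 := fpor P t (g * t) x a
    rw [d_comm P t x, d_comm P (g * t) a, d_comm P t a, d_comm P x a, d_comm P x t] at i7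
    omega
  have i1 := fpor P 1 q t x
  have i2 : d P t q = d P q t := d_comm P t q
  rcases i1 with i1 | i1
  · exact main q hq (by omega) (by omega)
  · exact main 1 h1 (by omega) (by omega)

end Pool.Agent.TH95.NR.J1

namespace Pool.Agent.TH95.NR

open Pool.Agent.TH54.BU

open J1 in
theorem tree_gh {Γ : Type} [Group Γ] (P : PL Γ) (p : ℕ) (hp : 0 < p)
    (par : ∀ g h : Γ, Even (P.len (g * h) + P.len g + P.len h))
    (noinv : ∀ g : Γ, P.len g = 1 → P.len (g * g) ≠ 0)
    (ac : ∀ u g : Γ, P.len g = 0 → P.len (u⁻¹ * g * u) = 0 → 3 ≤ P.len u → g = 1)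
    (tor : ∀ g : Γ, P.len g = 0 → g ^ p = 1) :
    ∃ H : GH Γ, H.D = 4 ∧ H.Stab 1 ∧ (∀ K B : ℕ, 8 * K + 20 ≤ B → H.Acy K B) ∧
      (∀ g : Γ, IsOfFinOrder g → g ^ p = 1) ∧ ∀ g : Γ, H.len g ≤ max 1 (P.len g) := by
  have hell : ∀ g u : Γ, P.len (u⁻¹ * g * u) = 0 → g ^ p = 1 := by
    intro g u h
    have h1 := tor _ h
    have h2 := conj_pow (i := p) (a := u⁻¹) (b := g)
    rw [inv_inv] at h2
    rw [h2] at h1
    have h3 : g ^ p = u * (u⁻¹ * g ^ p * u) * u⁻¹ := by group
    rw [h3, h1]
    group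
  have hfin : ∀ g : Γ, IsOfFinOrder g → ∃ u : Γ, P.len (u⁻¹ * g * u) = 0 := by
    intro g hg
    rcases dichotomy P par noinv g with h | h
    · exact h
    · obtain ⟨n, hn, hn1⟩ := isOfFinOrder_iff_pow_eq_one.1 hg
      have := h n
      rw [hn1, P.len_one] at this
      omega
  refine ⟨GHl P, rfl, ?_, ?_, ?_, GHl_le P⟩
  · intro g hg m
    rw [one_mul]
    rcases dichotomy P par noinv g with ⟨u, h⟩ | h
    · exact absurd (isOfFinOrder_iff_pow_eq_one.2 ⟨p, hp, hell g u h⟩) hg
    · exact (h m).trans (le_GHl P _)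
  · intro K B hKB q hq g hg
    have hqP : B ≤ P.len q := by
      have := GHl_le P q
      omega
    have hsd : ∀ g ∈ (GHl P).SD K q, d P 1 (g * 1) ≤ K ∧ d P q (g * q) ≤ K := by
      intro g hg
      have h1 : (GHl P).len g ≤ K := hg.1
      have h2 : (GHl P).len (q⁻¹ * g * q) ≤ K := hg.2
      have h3 := le_GHl P g
      have h4 := le_GHl P (q⁻¹ * g * q)
      have e1 : d P 1 (g * 1) = P.len g := by rw [mul_one, d_one]
      have e2 : d P q (g * q) = P.len (q⁻¹ * g * q) := by
        unfold d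
        rw [mul_assoc]
      omega
    obtain ⟨g1, g2⟩ := hsd g hg
    constructor
    · intro hgf
      obtain ⟨x, hx⟩ := hfin g hgf
      apply two_pts P ac (q := q) (g := g) (A := K + 1) (by omega)
      intro t ht ht1 ht2
      exact ell_fix P hx g1 g2 ht ht1 ht2
    · intro h hh
      obtain ⟨h1, h2⟩ := hsd h hh
      have hc : g * h * g⁻¹ * h⁻¹ = 1 := by
        apply two_pts P ac (q := q) (A := 4 * K + 1) (by omega)
        intro t ht ht1 ht2
        exact cm P g1 g2 h1 h2 ht ht1 ht2
      have hc2 : g * h = (g * h * g⁻¹ * h⁻¹) * (h * g) := by group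
      rw [hc2, hc, one_mul]
  · intro g hg
    obtain ⟨u, hu⟩ := hfin g hg
    exact hell g u hu

end Pool.Agent.TH95.NR
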