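import Pool.Agent.TH54.BU.Defs
import Pool.Agent.TH54.BU.BurnDef

/-!
# Definitions for MP_0a5b83_al (helper95)

`dd P` is the second derived subgroup of a subgroup `P`; `PL G` is a pseudo-length which makes `G`
(modulo the elements of length zero) a tree.
-/

set_option autoImplicit false

namespace Pool.Agent.TH95.NR

open Pool.Agent.TH54.BU

/-- the second derived subgroup of the subgroup `P` -/
def dd {G : Type*} [Group G] (P : Subgroup G) : Subgroup G := ⁅⁅P, P⁆, ⁅P, P⁆⁆

/-- a pseudo-length such that `d u v = len (u⁻¹ * v)` is a pseudo-metric with the four point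
inequality with error `0`, and geodesics -/
structure PL (G : Type*) [Group G] where
  len : G → ℕ
  len_one : len 1 = 0
  len_inv : ∀ g, len g⁻¹ = len g
  len_mul : ∀ g h, len (g * h) ≤ len g + len h
  fp' : ∀ u v w z : G, len (u⁻¹ * v) + len (w⁻¹ * z) ≤
      max (len (u⁻¹ * w) + len (v⁻¹ * z)) (len (u⁻¹ * z) + len (v⁻¹ * w))
  step : ∀ g k, k ≤ len g → ∃ h, len h = k ∧ len (h⁻¹ * g) + k = len g

/-- the free group of exponent `p` on three generators -/
abbrev Q3 (p : ℕ) : Type := FreeGroup (Fin 3) ⧸ powSub (FreeGroup (Fin 3)) p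

/-- the three generators of `Q3 p` -/
def gen (p : ℕ) (i : Fin 3) : Q3 p := ((FreeGroup.of i : FreeGroup (Fin 3)) : Q3 p)

end Pool.Agent.TH95.NR
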