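import Pool.Agent.TH95.NR.Defs
import Pool.Agent.TH54.BU.Iter
import Pool.Agent.TH54.BU.Step2

/-!
# Quotients of large prime exponent
-/

set_option autoImplicit false

namespace Pool.Agent.TH95.NR

open Pool.Agent.TH54.BU

namespace J2

variable {F0 : Type} [Group F0]

/-- a stage of the construction -/
structure Stg (F0 : Type) [Group F0] (p K B T : ℕ) where
  M : Subgroup F0
  hM : M.Normal
  le : M ≤ powSub F0 p
  tor : ∀ g : F0 ⧸ M, IsOfFinOrder g → g ^ p = 1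
  H : GH (F0 ⧸ M)
  hD : H.D = 4
  stab : H.Stab T
  acy : H.Acy K B

variable {p K B T : ℕ}

instance (s : Stg F0 p K B T) : s.M.Normal := s.hM

/-- the length of an element at a stage -/
def Stg.ln (s : Stg F0 p K B T) (g : F0) : ℕ := s.H.len (g : F0 ⧸ s.M)

/-- the relation between successive stages -/
structure Nxt (s s' : Stg F0 p K B T) : Prop where
  leM : s.M ≤ s'.M
  len : ∀ g, s'.ln g ≤ (s.ln g + 1) / 2
  small : ∀ g, s.ln g ≤ 4 → g ∈ s'.M → g ∈ s.M
  kill : ∀ g, s.ln g ≤ 1 → ∃ m : ℕ, 0 < m ∧ g ^ m ∈ s'.M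

theorem exists_next
    (hstep : ∀ (A G : Type) [Group A] [Group G] (φ : A →* G),
    Function.Surjective φ → ∀ z : A, (∀ a, a * z = z * a) → φ.ker = Subgroup.zpowers z →
    (∀ a : A, IsOfFinOrder (φ a) → ∃ k : ℤ, a ^ p = z ^ k) →
    ∀ H : GH G, H.D = 4 → H.Stab T → H.Acy K B →
    ∃ (N : Subgroup A) (_ : N.Normal) (M : Subgroup G) (_ : M.Normal) (R0 : ℕ),
      StepD φ z 0 p K B T R0 H N M) (s : Stg F0 p K B T) : ∃ s' : Stg F0 p K B T, Nxt s s' := by
  have hMn := s.hM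
  let Q := F0 ⧸ s.M
  let A := Q × Multiplicative ℤ
  let φ : A →* Q := MonoidHom.fst _ _
  let z : A := (1, Multiplicative.ofAdd 1)
  have hz0 : ∀ k : ℤ, z ^ k = (1, Multiplicative.ofAdd k) := by
    intro k
    apply Prod.ext
    · show (1 : Q) ^ k = 1
      exact one_zpow k
    · show (Multiplicative.ofAdd (1 : ℤ)) ^ k = Multiplicative.ofAdd k
      rw [← ofAdd_zsmul]
      simp
  have hφ : Function.Surjective φ := fun g => ⟨(g, 1), rfl⟩
  have hz : ∀ a : A, a * z = z * a := by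
    intro a
    apply Prod.ext
    · show a.1 * 1 = 1 * a.1
      rw [mul_one, one_mul]
    · exact mul_comm _ _
  have hker : φ.ker = Subgroup.zpowers z := by
    ext a
    constructor
    · intro h
      have h1 : a.1 = 1 := h
      refine ⟨Multiplicative.toAdd a.2, ?_⟩
      show z ^ (Multiplicative.toAdd a.2) = a
      rw [hz0]
      exact Prod.ext h1.symm rfl
    · rintro ⟨k, rfl⟩
      show φ (z ^ k) = 1
      rw [hz0]
      rfl
  have htz : ∀ a : A, IsOfFinOrder (φ a) → ∃ k : ℤ, a ^ p = z ^ k := by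
    intro a ha
    have h1 := s.tor a.1 ha
    refine ⟨Multiplicative.toAdd (a.2 ^ p), ?_⟩
    rw [hz0]
    exact Prod.ext h1 rfl
  obtain ⟨N1, hN1, M1, hM1, R0, S⟩ := hstep A Q φ hφ z hz hker htz s.H s.hD s.stab s.acy
  obtain ⟨F, hFD, hFS, hFA, hFlen, -⟩ := S.len
  let M' : Subgroup F0 := M1.comap (QuotientGroup.mk' s.M)
  have hM'n : M'.Normal := hM1.comap _
  have memM : ∀ g : F0, g ∈ M' ↔ (g : F0 ⧸ s.M) ∈ M1 := fun g => Iff.rfl
  let ψ : F0 →* (F0 ⧸ s.M) ⧸ M1 := (QuotientGroup.mk' M1).comp (QuotientGroup.mk' s.M)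
  have hψker : ∀ g, ψ g = 1 ↔ g ∈ M' := by
    intro g
    show (((g : F0 ⧸ s.M) : (F0 ⧸ s.M)) : (F0 ⧸ s.M) ⧸ M1) = 1 ↔ _
    rw [QuotientGroup.eq_one_iff, memM]
  let e0 : F0 ⧸ M' →* (F0 ⧸ s.M) ⧸ M1 := QuotientGroup.lift M' ψ (fun g hg => (hψker g).2 hg)
  have he0 : Function.Bijective e0 := by
    constructor
    · rw [injective_iff_map_eq_one]
      intro g hg
      obtain ⟨g, rfl⟩ := QuotientGroup.mk_surjective g
      exact (QuotientGroup.eq_one_iff _).2 ((hψker g).1 hg)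
    · intro g
      obtain ⟨g, rfl⟩ := QuotientGroup.mk_surjective g
      obtain ⟨g, rfl⟩ := QuotientGroup.mk_surjective g
      exact ⟨(g : F0 ⧸ M'), rfl⟩
  let e : F0 ⧸ M' ≃* (F0 ⧸ s.M) ⧸ M1 := MulEquiv.ofBijective e0 he0
  have finM : ∀ g : F0, (∃ m : ℕ, 0 < m ∧ g ^ m ∈ M') ↔
      IsOfFinOrder ((g : F0 ⧸ s.M) : (F0 ⧸ s.M) ⧸ M1) := by
    intro g
    rw [fin_mk]
    constructor
    · rintro ⟨m, hm, h⟩
      exact ⟨m, hm, by rw [← QuotientGroup.mk_pow]; exact h⟩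
    · rintro ⟨m, hm, h⟩
      refine ⟨m, hm, ?_⟩
      rw [memM, QuotientGroup.mk_pow]
      exact h
  refine ⟨⟨M', hM'n, ?_, ?_, F.comapE e, hFD, F.comapE_stab e hFS, F.comapE_acy e hFA⟩, ?_⟩
  · intro g hg
    have h1 := S.le ((memM g).1 hg)
    have h2 : powSub (F0 ⧸ s.M) p ≤ (powSub F0 p).map (QuotientGroup.mk' s.M) := by
      unfold powSub
      rw [Subgroup.map_normalClosure _ _ (QuotientGroup.mk'_surjective s.M)]
      apply Subgroup.normalClosure_mono
      rintro _ ⟨x, rfl⟩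
      obtain ⟨x, rfl⟩ := QuotientGroup.mk_surjective x
      exact ⟨x ^ p, ⟨x, rfl⟩, rfl⟩
    obtain ⟨w, hw, hwg⟩ := h2 h1
    have h3 : (w : F0 ⧸ s.M) = g := hwg
    have h4 := s.le (QuotientGroup.eq.1 h3)
    have := (powSub F0 p).mul_mem hw h4
    rwa [mul_inv_cancel_left] at this
  · intro g hg
    obtain ⟨g, rfl⟩ := QuotientGroup.mk_surjective g
    have h1 := (fin_mk M' g).1 hg
    have h2 := (finM g).1 h1
    obtain ⟨k, hk⟩ := S.tz (((g : F0 ⧸ s.M), 1) : A) h2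
    have h3 : φ ((((g : F0 ⧸ s.M), 1) : A) ^ p * z ^ (-k)) ∈ M1 := by
      rw [← S.map]
      exact ⟨_, hk, rfl⟩
    rw [map_mul, map_pow, hz0] at h3
    have h4 : (g : F0 ⧸ s.M) ^ p * 1 ∈ M1 := h3
    rw [mul_one, ← QuotientGroup.mk_pow] at h4
    rw [← QuotientGroup.mk_pow, QuotientGroup.eq_one_iff]
    exact h4
  · refine ⟨?_, ?_, ?_, ?_⟩
    · intro a ha
      show ((a : F0) : F0 ⧸ s.M) ∈ M1
      rw [(QuotientGroup.eq_one_iff a).2 ha]
      exact M1.one_mem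
    · intro g
      exact hFlen (g : F0 ⧸ s.M)
    · intro g h1 h2
      exact (QuotientGroup.eq_one_iff g).1 (S.small (g : F0 ⧸ s.M) h1 h2)
    · intro g h1
      exact (finM g).2 (S.kill (g : F0 ⧸ s.M) h1)

end J2

open J2 in
theorem bquot : ∃ K B T : ℕ, 500 ≤ K ∧ 8 * K + 20 ≤ B ∧ 1 ≤ T ∧ ∃ p0 : ℕ, ∀ p : ℕ, p.Prime →
    p0 ≤ p → ∀ (Γ : Type) [Group Γ] (H : GH Γ), H.D = 4 → H.Stab T → H.Acy K B →
    (∀ g : Γ, IsOfFinOrder g → g ^ p = 1) →
    ∃ (N : Subgroup Γ) (_ : N.Normal), (∀ g : Γ, g ^ p ∈ N) ∧ N ≤ powSub Γ p ∧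
      ∀ g : Γ, H.len g ≤ 4 → g ∈ N → g = 1 := by
  obtain ⟨K, B, T, R0, hK, hB, hT, hR, p0, hstep⟩ := step2
  refine ⟨K, B, T, hK, hB, hT, p0, fun p hp hpp Γ _ H0 hD0 hS0 hA0 htor => ?_⟩
  have hst := hstep p hp hpp 0
  let e0 : Γ ⧸ (⊥ : Subgroup Γ) ≃* Γ := QuotientGroup.quotientBot
  let s0 : Stg Γ p K B T :=
    { M := ⊥
      hM := inferInstance
      le := bot_le
      tor := by
        intro g hg
        have h1 := htor (e0 g) ((isOfFinOrder_equiv e0 g).2 hg)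
        rw [← map_pow] at h1
        exact (map_eq_one_iff e0 e0.injective).1 h1
      H := H0.comapE e0
      hD := hD0
      stab := H0.comapE_stab e0 hS0
      acy := H0.comapE_acy e0 hA0 }
  have hnext := exists_next (F0 := Γ) (K := K) (B := B) (T := T) (p := p)
    (fun A G _ _ φ h1 z h2 h3 h4 H h5 h6 h7 => by
      obtain ⟨N, hN, M, hM, S⟩ := hst A G φ h1 z h2 h3 h4 H h5 h6 h7
      exact ⟨N, hN, M, hM, R0, S⟩)
  choose nx hnx using hnext
  let s : ℕ → Stg Γ p K B T := fun n => nx^[n] s0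
  have hs : ∀ n, Nxt (s n) (s (n + 1)) := by
    intro n
    have : s (n + 1) = nx (s n) := Function.iterate_succ_apply' nx n s0
    rw [this]
    exact hnx _
  have hMmono : Monotone fun n => (s n).M := monotone_nat_of_le_succ fun n => (hs n).leM
  have hdec : ∀ g : Γ, ∀ k n : ℕ, (s n).ln g ≤ k + 1 → ∃ n', (s n').ln g ≤ 1 := by
    intro g k
    induction k with
    | zero => exact fun n h => ⟨n, h⟩
    | succ k ih =>
      intro n h
      have := (hs n).len g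
      exact ih (n + 1) (by omega)
  have hpow : ∀ g : Γ, ∃ n, g ^ p ∈ (s n).M := by
    intro g
    obtain ⟨n, hn⟩ := hdec g ((s 0).ln g) 0 (by omega)
    have h1 := (fin_mk (s (n + 1)).M g).2 ((hs n).kill g hn)
    have h2 := (s (n + 1)).tor _ h1
    rw [← QuotientGroup.mk_pow, QuotientGroup.eq_one_iff] at h2
    exact ⟨n + 1, h2⟩
  let Minf : Subgroup Γ := ⨆ n, (s n).M
  have memM : ∀ g : Γ, g ∈ Minf ↔ ∃ n, g ∈ (s n).M := fun g =>
    Subgroup.mem_iSup_of_directed hMmono.directed_le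
  have hMn : Minf.Normal := by
    constructor
    intro a ha g
    obtain ⟨n, hn⟩ := (memM a).1 ha
    exact (memM _).2 ⟨n, (s n).hM.conj_mem a hn g⟩
  refine ⟨Minf, hMn, ?_, iSup_le fun n => (s n).le, ?_⟩
  · intro g
    exact (memM _).2 (hpow g)
  · intro w hw4 hw
    rw [memM] at hw
    obtain ⟨n, hn⟩ := hw
    have hln : ∀ n, (s n).ln w ≤ 4 := by
      intro n
      induction n with
      | zero => exact hw4
      | succ n ih =>
        have := (hs n).len w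
        omega
    have hall : ∀ n, w ∈ (s n).M → w = 1 := by
      intro n
      induction n with
      | zero =>
        intro h0
        exact Subgroup.mem_bot.1 h0
      | succ n ih => exact fun h1 => ih ((hs n).small w (hln n) h1)
    exact hall n hn

end Pool.Agent.TH95.NR
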