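import Pool.Agent.TH95.NR.Defs

set_option autoImplicit false

namespace Pool.Agent.TH95.NR

open Pool.Agent.TH54.BU

namespace J5

variable {p : ℕ}

theorem pow_Q (x : Q3 p) : x ^ p = 1 := by
  induction x using QuotientGroup.induction_on with
  | H g =>
    rw [← QuotientGroup.mk_pow, QuotientGroup.eq_one_iff]
    exact Subgroup.subset_normalClosure ⟨g, rfl⟩

/-- the homomorphism given by the images of the three generators -/
noncomputable def ext {H : Type} [Group H] (f : Fin 3 → H) (hH : ∀ h : H, h ^ p = 1) : Q3 p →* H :=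
  QuotientGroup.lift (powSub (FreeGroup (Fin 3)) p) (FreeGroup.lift f) (by
    have h1 : powSub (FreeGroup (Fin 3)) p ≤ (FreeGroup.lift f).ker := by
      refine Subgroup.normalClosure_le_normal ?_
      rintro _ ⟨g, rfl⟩
      simp only [SetLike.mem_coe, MonoidHom.mem_ker, map_pow]
      exact hH _
    exact h1)

theorem ext_gen {H : Type} [Group H] (f : Fin 3 → H) (hH : ∀ h : H, h ^ p = 1) (i : Fin 3) :
    ext f hH (gen p i) = f i := by
  unfold ext gen
  erw [QuotientGroup.lift_mk]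
  simp

theorem ext_mem {H : Type} [Group H] (f : Fin 3 → H) (hH : ∀ h : H, h ^ p = 1) (C : Subgroup H)
    (hC : ∀ i, f i ∈ C) (q : Q3 p) : ext f hH q ∈ C := by
  induction q using QuotientGroup.induction_on with
  | H g =>
    unfold ext
    erw [QuotientGroup.lift_mk]
    have := FreeGroup.range_lift_le (f := f) (s := C) (by rintro _ ⟨i, rfl⟩; exact hC i)
    exact this ⟨g, rfl⟩

theorem hom_ext {H : Type} [Group H] {f g : Q3 p →* H} (h : ∀ i, f (gen p i) = g (gen p i)) :
    f = g := by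
  apply QuotientGroup.monoidHom_ext
  ext i
  exact h i

/-- elements which commute with a nontrivial element are powers of it -/
theorem comm_zpowers (hp : p.Prime) (hB : Burn p) (x y : Q3 p) (hx : x ≠ 1)
    (h : x * y = y * x) : y ∈ Subgroup.zpowers x := by
  obtain ⟨E, _, z, φ, hs, hk, hc, hz, hpow, -⟩ := hB (Fin 3)
  obtain ⟨X, rfl⟩ := hs x
  obtain ⟨Y, rfl⟩ := hs y
  have hzi : Function.Injective (fun n : ℤ => z ^ n) := injective_zpow_iff_not_isOfFinOrder.2 hz
  have hcz : ∀ (a : E) (n : ℤ), Commute a (z ^ n) := fun a n => (Commute.zpow_right (hc a) n)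
  have hX : X ∉ Subgroup.zpowers z := by
    rw [← hk, MonoidHom.mem_ker]
    exact hx
  obtain ⟨k, hXk, hkp⟩ := hpow X hX
  -- commutator
  have h1 : X * Y * (Y * X)⁻¹ ∈ φ.ker := by
    rw [MonoidHom.mem_ker, map_mul, map_mul, map_inv, map_mul, h, mul_inv_cancel]
  rw [hk] at h1
  obtain ⟨m, hm⟩ := Subgroup.mem_zpowers_iff.1 h1
  have h2 : X * Y = z ^ m * (Y * X) := by rw [hm]; group
  have h3 : ∀ n : ℕ, X ^ n * Y = z ^ (m * n) * (Y * X ^ n) := by
    intro n
    induction n with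
    | zero => simp
    | succ n ih =>
      rw [pow_succ', mul_assoc, ih]
      have e1 : X * (z ^ (m * n) * (Y * X ^ n)) = z ^ (m * n) * (X * Y) * X ^ n := by
        rw [← mul_assoc, (hcz X _).eq]
        group
      rw [e1, h2]
      push_cast
      rw [mul_add, mul_one, zpow_add]
      group
  have h4 : (m * p : ℤ) = 0 := by
    have := h3 p
    rw [hXk] at this
    have e : z ^ k * Y = Y * z ^ k := ((hcz Y k).eq).symm
    rw [e] at this
    have h5 : z ^ (m * p : ℤ) = 1 := by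
      have := mul_right_cancel (a := z ^ (m * p : ℤ)) (b := Y * z ^ k) (c := 1) (by
        rw [one_mul]; exact this.symm)
      exact this
    have := hzi (a₁ := m * p) (a₂ := 0) (by simpa using h5)
    exact this
  have hp0 : (p : ℤ) ≠ 0 := by exact_mod_cast hp.ne_zero
  have hm0 : m = 0 := by
    rcases mul_eq_zero.1 h4 with h | h
    · exact h
    · exact absurd h hp0
  have hXY : Commute X Y := by
    rw [hm0, zpow_zero, one_mul] at h2
    exact h2
  by_cases hY : φ Y = 1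
  · rw [hY]; exact one_mem _
  have hY' : Y ∉ Subgroup.zpowers z := by
    rw [← hk, MonoidHom.mem_ker]
    exact hY
  obtain ⟨l, hYl, -⟩ := hpow Y hY'
  have : Fact p.Prime := ⟨hp⟩
  have hk0 : (k : ZMod p) ≠ 0 := by
    rw [Ne, ZMod.intCast_zmod_eq_zero_iff_dvd]
    exact hkp
  obtain ⟨s, hs'⟩ : ∃ s : ℤ, (p : ℤ) ∣ l - s * k := by
    refine ⟨(((l : ZMod p) * (k : ZMod p)⁻¹).val : ℤ), ?_⟩
    rw [← ZMod.intCast_zmod_eq_zero_iff_dvd]
    push_cast
    rw [ZMod.natCast_zmod_val, mul_assoc, inv_mul_cancel₀ hk0, mul_one, sub_self]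
  have h6 : (Y * X ^ (-s)) ^ p = z ^ (l - s * k) := by
    have hcm : Commute Y (X ^ (-s)) := (hXY.symm).zpow_right _
    rw [hcm.mul_pow, hYl]
    have : (X ^ (-s)) ^ p = z ^ (-(s * k)) := by
      rw [← zpow_natCast, ← zpow_mul, mul_comm, zpow_mul, zpow_natCast, hXk, ← zpow_mul]
      congr 1
      ring
    rw [this, ← zpow_add]
    congr 1
  have h7 : Y * X ^ (-s) ∈ Subgroup.zpowers z := by
    by_contra hcon
    obtain ⟨k', h8, h9⟩ := hpow _ hcon
    rw [h6] at h8
    have := hzi h8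
    exact h9 (this ▸ hs')
  rw [← hk, MonoidHom.mem_ker, map_mul, map_zpow] at h7
  refine Subgroup.mem_zpowers_iff.2 ⟨s, ?_⟩
  rw [zpow_neg] at h7
  exact (mul_inv_eq_one.1 h7).symm

/-- a retract of a group in which centralizers are cyclic is malnormal -/
theorem malnormal {Q : Type} [Group Q] (C : Subgroup Q) (ρ : Q →* Q) (hid : ∀ c ∈ C, ρ c = c)
    (hr : ∀ q, ρ q ∈ C) (hcomm : ∀ x y : Q, x ≠ 1 → x * y = y * x → y ∈ Subgroup.zpowers x) :
    ∀ a ∈ C, ∀ q, q ∉ C → q⁻¹ * a * q ∈ C → a = 1 := by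
  intro a ha q hq h
  by_contra ha1
  apply hq
  have h1 : ρ q⁻¹ * a * ρ q = q⁻¹ * a * q := by
    have := hid _ h
    rw [map_mul, map_mul, hid a ha] at this
    exact this
  have h2 : a * (q * (ρ q)⁻¹) = (q * (ρ q)⁻¹) * a := by
    rw [map_inv] at h1
    calc a * (q * (ρ q)⁻¹) = q * (q⁻¹ * a * q) * (ρ q)⁻¹ := by group
      _ = q * ((ρ q)⁻¹ * a * ρ q) * (ρ q)⁻¹ := by rw [h1]
      _ = (q * (ρ q)⁻¹) * a := by group
  have h3 := hcomm a _ ha1 h2
  have h4 : q * (ρ q)⁻¹ ∈ C := by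
    have : Subgroup.zpowers a ≤ C := by
      rw [Subgroup.zpowers_le]; exact ha
    exact this h3
  have h5 := mul_mem h4 (hr q)
  rwa [inv_mul_cancel_right] at h5

end J5

open J5 in
theorem burn_facts (p : ℕ) (hp : p.Prime) (hB : Burn p) :
    ∃ (A B : Subgroup (Q3 p)) (φ : A ≃* B) (h0 : gen p 0 ∈ A) (h1 : gen p 1 ∈ A),
      (φ ⟨gen p 0, h0⟩ : Q3 p) = gen p 1 ∧ (φ ⟨gen p 1, h1⟩ : Q3 p) = gen p 2 ∧
      (∀ a ∈ A, ∀ q, q ∉ A → q⁻¹ * a * q ∈ A → a = 1) ∧
      (∀ b ∈ B, ∀ q, q ∉ B → q⁻¹ * b * q ∈ B → b = 1) ∧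
      (∀ a ∈ A, ∀ (q r : Q3 p) (h : q⁻¹ * a * q ∈ B),
        r⁻¹ * (φ.symm ⟨q⁻¹ * a * q, h⟩ : Q3 p) * r ∈ B → a = 1) ∧
      (∀ b ∈ B, ∀ (q r : Q3 p) (h : q⁻¹ * b * q ∈ A),
        r⁻¹ * (φ ⟨q⁻¹ * b * q, h⟩ : Q3 p) * r ∈ A → b = 1) := by
  classical
  have : Fact p.Prime := ⟨hp⟩
  have hcomm := comm_zpowers hp hB
  -- the automorphism
  let f1 : Q3 p →* Q3 p := ext (fun i => gen p (i + 1)) pow_Q
  let f2 : Q3 p →* Q3 p := ext (fun i => gen p (i + 2)) pow_Q
  have e1 : ∀ i, f1 (gen p i) = gen p (i + 1) := fun i => ext_gen _ _ i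
  have e2 : ∀ i, f2 (gen p i) = gen p (i + 2) := fun i => ext_gen _ _ i
  have e12 : f2.comp f1 = MonoidHom.id _ := by
    apply hom_ext
    intro i
    simp only [MonoidHom.comp_apply, MonoidHom.id_apply, e1, e2]
    congr 1
    revert i; decide
  have e21 : f1.comp f2 = MonoidHom.id _ := by
    apply hom_ext
    intro i
    simp only [MonoidHom.comp_apply, MonoidHom.id_apply, e1, e2]
    congr 1
    revert i; decide
  let α : Q3 p ≃* Q3 p := MonoidHom.toMulEquiv f1 f2 e12 e21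
  have hα : ∀ i, α (gen p i) = gen p (i + 1) := e1
  have hαs : ∀ i, α.symm (gen p i) = gen p (i + 2) := e2
  let A : Subgroup (Q3 p) := Subgroup.closure {gen p 0, gen p 1}
  let B : Subgroup (Q3 p) := A.map α.toMonoidHom
  have hBc : B = Subgroup.closure {gen p 1, gen p 2} := by
    show Subgroup.map _ (Subgroup.closure _) = _
    rw [MonoidHom.map_closure, Set.image_pair]
    congr 2
  let φ : A ≃* B := α.subgroupMap A
  have hφ : ∀ a : A, (φ a : Q3 p) = α a := fun a => rfl
  have hφs : ∀ b : B, (φ.symm b : Q3 p) = α.symm b := by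
    intro b
    apply α.injective
    rw [MulEquiv.apply_symm_apply, ← hφ, MulEquiv.apply_symm_apply]
  have h0 : gen p 0 ∈ A := Subgroup.subset_closure (by simp)
  have h1 : gen p 1 ∈ A := Subgroup.subset_closure (by simp)
  have h1B : gen p 1 ∈ B := hBc ▸ Subgroup.subset_closure (by simp)
  have h2B : gen p 2 ∈ B := hBc ▸ Subgroup.subset_closure (by simp)
  -- retractions
  let ρA : Q3 p →* Q3 p := ext ![gen p 0, gen p 1, 1] pow_Q
  let ρB : Q3 p →* Q3 p := ext ![1, gen p 1, gen p 2] pow_Q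
  have a0 : ρA (gen p 0) = gen p 0 := ext_gen _ _ 0
  have a1 : ρA (gen p 1) = gen p 1 := ext_gen _ _ 1
  have a2 : ρA (gen p 2) = 1 := ext_gen _ _ 2
  have b0 : ρB (gen p 0) = 1 := ext_gen _ _ 0
  have b1 : ρB (gen p 1) = gen p 1 := ext_gen _ _ 1
  have b2 : ρB (gen p 2) = gen p 2 := ext_gen _ _ 2
  have hidA : ∀ c ∈ A, ρA c = c := by
    intro c hc
    have : Set.EqOn ρA (MonoidHom.id (Q3 p)) (Subgroup.closure {gen p 0, gen p 1}) :=
      MonoidHom.eqOn_closure (by
        rintro x (rfl | rfl)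
        · exact a0
        · exact a1)
    exact this hc
  have hidB : ∀ c ∈ B, ρB c = c := by
    intro c hc
    rw [hBc] at hc
    have : Set.EqOn ρB (MonoidHom.id (Q3 p)) (Subgroup.closure {gen p 1, gen p 2}) :=
      MonoidHom.eqOn_closure (by
        rintro x (rfl | rfl)
        · exact b1
        · exact b2)
    exact this hc
  have hrA : ∀ q, ρA q ∈ A := fun q => ext_mem _ _ A (by
    intro i; fin_cases i
    · exact h0
    · exact h1
    · exact one_mem _) q
  have hrB : ∀ q, ρB q ∈ B := fun q => ext_mem _ _ B (by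
    intro i; fin_cases i
    · exact one_mem _
    · exact h1B
    · exact h2B) q
  have hAB : ∀ b ∈ B, ∃ k : ℤ, gen p 1 ^ k = ρA b := by
    intro b hb
    rw [hBc] at hb
    have h : Subgroup.closure {gen p 1, gen p 2} ≤ (Subgroup.zpowers (gen p 1)).comap ρA := by
      rw [Subgroup.closure_le]
      rintro x (rfl | rfl)
      · simp only [SetLike.mem_coe, Subgroup.mem_comap, a1]
        exact Subgroup.mem_zpowers _
      · simp only [SetLike.mem_coe, Subgroup.mem_comap, a2]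
        exact one_mem _
    exact Subgroup.mem_zpowers_iff.1 (h hb)
  have hBA : ∀ b ∈ A, ∃ k : ℤ, gen p 1 ^ k = ρB b := by
    intro b hb
    have h : Subgroup.closure {gen p 0, gen p 1} ≤ (Subgroup.zpowers (gen p 1)).comap ρB := by
      rw [Subgroup.closure_le]
      rintro x (rfl | rfl)
      · simp only [SetLike.mem_coe, Subgroup.mem_comap, b0]
        exact one_mem _
      · simp only [SetLike.mem_coe, Subgroup.mem_comap, b1]
        exact Subgroup.mem_zpowers _
    exact Subgroup.mem_zpowers_iff.1 (h hb)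
  -- characters
  have hZ : ∀ h : Multiplicative (ZMod p), h ^ p = 1 := by
    intro h
    apply Multiplicative.toAdd.injective
    rw [toAdd_pow, toAdd_one]
    simp
  let χ0 : Q3 p →* Multiplicative (ZMod p) := ext ![Multiplicative.ofAdd 1, 1, 1] hZ
  let χ2 : Q3 p →* Multiplicative (ZMod p) := ext ![1, 1, Multiplicative.ofAdd 1] hZ
  have c00 : χ0 (gen p 0) = Multiplicative.ofAdd 1 := ext_gen _ _ 0
  have c01 : χ0 (gen p 1) = 1 := ext_gen _ _ 1
  have c02 : χ0 (gen p 2) = 1 := ext_gen _ _ 2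
  have c20 : χ2 (gen p 0) = 1 := ext_gen _ _ 0
  have c21 : χ2 (gen p 1) = 1 := ext_gen _ _ 1
  have c22 : χ2 (gen p 2) = Multiplicative.ofAdd 1 := ext_gen _ _ 2
  have hχ0 : ∀ b ∈ B, χ0 b = 1 := by
    intro b hb
    rw [hBc] at hb
    have h : Subgroup.closure {gen p 1, gen p 2} ≤ χ0.ker := by
      rw [Subgroup.closure_le]
      rintro x (rfl | rfl)
      · exact c01
      · exact c02
    exact h hb
  have hχ2 : ∀ b ∈ A, χ2 b = 1 := by
    intro b hb
    have h : Subgroup.closure {gen p 0, gen p 1} ≤ χ2.ker := by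
      rw [Subgroup.closure_le]
      rintro x (rfl | rfl)
      · exact c20
      · exact c21
    exact h hb
  have hkey : ∀ k : ℤ, (Multiplicative.ofAdd (1 : ZMod p)) ^ k = 1 → gen p 1 ^ k = 1 := by
    intro k hk
    have : (k : ZMod p) = 0 := by
      have := congrArg Multiplicative.toAdd hk
      rw [toAdd_zpow, toAdd_one] at this
      simpa using this
    rw [ZMod.intCast_zmod_eq_zero_iff_dvd] at this
    obtain ⟨c, rfl⟩ := this
    rw [zpow_mul, zpow_natCast, pow_Q, one_zpow]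
  refine ⟨A, B, φ, h0, h1, ?_, ?_, malnormal A ρA hidA hrA hcomm, malnormal B ρB hidB hrB hcomm,
    ?_, ?_⟩
  · rw [hφ]; exact hα 0
  · rw [hφ]; exact hα 1
  · intro a ha q r h hr
    rw [hφs] at hr
    obtain ⟨k, hk⟩ := hAB _ h
    rw [map_mul, map_mul, hidA a ha, map_inv] at hk
    have ha' : a = ρA q * gen p 1 ^ k * (ρA q)⁻¹ := by rw [hk]; group
    have h3 := hχ0 _ hr
    have h4 : χ0 (α.symm (q⁻¹ * a * q)) = 1 := by
      rw [map_mul, map_mul, map_inv] at h3
      have : χ0 (α.symm (q⁻¹ * a * q)) = (χ0 r)⁻¹ * χ0 (α.symm (q⁻¹ * a * q)) * χ0 r := by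
        rw [mul_comm, mul_inv_cancel_left]
      rw [this]; exact h3
    have h5 : χ0 (α.symm (gen p 1 ^ k)) = 1 := by
      rw [ha'] at h4
      simp only [map_mul, map_inv] at h4
      have : ∀ u v w : Multiplicative (ZMod p), u⁻¹ * (v * w * v⁻¹) * u = w := by
        intro u v w
        rw [mul_comm (u⁻¹), mul_assoc, inv_mul_cancel, mul_one, mul_comm v, mul_assoc,
          mul_inv_cancel, mul_one]
      rw [this] at h4
      exact h4
    rw [map_zpow, hαs, map_zpow] at h5
    have e : (1 + 2 : Fin 3) = 0 := rfl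
    rw [e, c00] at h5
    rw [ha', hkey k h5]
    group
  · intro b hb q r h hr
    rw [hφ] at hr
    obtain ⟨k, hk⟩ := hBA _ h
    rw [map_mul, map_mul, hidB b hb, map_inv] at hk
    have hb' : b = ρB q * gen p 1 ^ k * (ρB q)⁻¹ := by rw [hk]; group
    have h3 := hχ2 _ hr
    have h4 : χ2 (α (q⁻¹ * b * q)) = 1 := by
      rw [map_mul, map_mul, map_inv] at h3
      have : χ2 (α (q⁻¹ * b * q)) = (χ2 r)⁻¹ * χ2 (α (q⁻¹ * b * q)) * χ2 r := by
        rw [mul_comm, mul_inv_cancel_left]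
      rw [this]; exact h3
    have h5 : χ2 (α (gen p 1 ^ k)) = 1 := by
      rw [hb'] at h4
      simp only [map_mul, map_inv] at h4
      have : ∀ u v w : Multiplicative (ZMod p), u⁻¹ * (v * w * v⁻¹) * u = w := by
        intro u v w
        rw [mul_comm (u⁻¹), mul_assoc, inv_mul_cancel, mul_one, mul_comm v, mul_assoc,
          mul_inv_cancel, mul_one]
      rw [this] at h4
      exact h4
    rw [map_zpow, hα, map_zpow] at h5
    have e : (1 + 1 : Fin 3) = 2 := rfl
    rw [e, c22] at h5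
    rw [hb', hkey k h5]
    group

end Pool.Agent.TH95.NR
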