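import Pool.Agent.TH95.NR.J1
import Pool.Agent.TH95.NR.J2me
import Pool.Agent.TH95.NR.J3
import Pool.Agent.TH95.NR.J4
import Pool.Agent.TH95.NR.J5
import Pool.Agent.TH54.BU.Iter

/-!
# The free group of exponent `p` and rank `3` in an exponent `p` group with a conjugating element
-/

set_option autoImplicit false

namespace Pool.Agent.TH95.NR

open Pool.Agent.TH54.BU

theorem powSub_le_ker {G H : Type*} [Group G] [Group H] (f : G →* H) (p : ℕ)
    (h : ∀ x : H, x ^ p = 1) : powSub G p ≤ f.ker := by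
  unfold powSub
  apply Subgroup.normalClosure_le_normal
  rintro _ ⟨g, rfl⟩
  show f (g ^ p) = 1
  rw [map_pow, h]

theorem exp_embed : ∃ p0 : ℕ, ∀ p : ℕ, p.Prime → p0 ≤ p →
    ∃ (L : Type) (_ : Group L) (ι : Q3 p →* L) (t : L),
      Function.Injective ι ∧ (∀ g : L, g ^ p = 1) ∧
      ι (gen p 1) = t * ι (gen p 0) * t⁻¹ ∧ ι (gen p 2) = t * ι (gen p 1) * t⁻¹ ∧
      t ∉ ι.range ∧ t ^ 2 ∉ ι.range := by
  obtain ⟨K, B, T, hK, hB, hT, p0, hq⟩ := bquot
  obtain ⟨p1, hb⟩ := burnside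
  refine ⟨p0 + p1 + 3, fun p hp hpp => ?_⟩
  have hburn : Burn p := hb p hp (by omega)
  obtain ⟨A, Bs, φ, h0, h1, e0, e1, hA, hBm, hc, hd⟩ := burn_facts p hp hburn
  obtain ⟨P, hP0, hPw, hPex, hPar, hPni⟩ := hnn_pl (Q3 p) A Bs φ
  have hac := hnn_ac (Q3 p) A Bs φ hA hBm hc hd P hP0 hPw hPex
  have hexp : ∀ x : Q3 p, x ^ p = 1 := by
    intro x
    obtain ⟨x, rfl⟩ := QuotientGroup.mk_surjective x
    rw [← QuotientGroup.mk_pow, QuotientGroup.eq_one_iff]
    exact Subgroup.subset_normalClosure ⟨x, rfl⟩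
  have htor : ∀ g : HNNExtension (Q3 p) A Bs φ, P.len g = 0 → g ^ p = 1 := by
    intro g hg
    obtain ⟨x, rfl⟩ := (hP0 g).1 hg
    rw [← map_pow, hexp, map_one]
  obtain ⟨H, hD, hS, hAcy, hfin, hlen⟩ := tree_gh P p hp.pos hPar hPni hac htor
  have hST : H.Stab T := by
    intro g hg m
    have := hS g hg m
    calc m ≤ 1 * H.len (g ^ m) := this
      _ ≤ T * H.len (g ^ m) := Nat.mul_le_mul_right _ hT
  obtain ⟨N, hN, hNp, hNle, hNs⟩ := hq p hp (by omega) (HNNExtension (Q3 p) A Bs φ) H hD hST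
    (hAcy K B hB) hfin
  let ι : Q3 p →* (HNNExtension (Q3 p) A Bs φ) ⧸ N :=
    (QuotientGroup.mk' N).comp HNNExtension.of
  let t : (HNNExtension (Q3 p) A Bs φ) ⧸ N := ((HNNExtension.t : HNNExtension (Q3 p) A Bs φ) : _ ⧸ N)
  -- the exponent of the stable letter
  have hz : ∀ x : Multiplicative (ZMod p), x ^ p = 1 := by
    intro x
    apply Multiplicative.toAdd.injective
    show p • Multiplicative.toAdd x = 0
    rw [nsmul_eq_mul, CharP.cast_eq_zero, zero_mul]
  let χ : HNNExtension (Q3 p) A Bs φ →* Multiplicative (ZMod p) :=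
    HNNExtension.lift 1 (Multiplicative.ofAdd 1) (by intro a; simp)
  have hχN : ∀ g ∈ N, χ g = 1 := by
    have : powSub (HNNExtension (Q3 p) A Bs φ) p ≤ χ.ker := powSub_le_ker χ p hz
    exact fun g hg => this (hNle hg)
  let χ' : (HNNExtension (Q3 p) A Bs φ) ⧸ N →* Multiplicative (ZMod p) :=
    QuotientGroup.lift N χ hχN
  have hχι : ∀ x, χ' (ι x) = 1 := by
    intro x
    show χ (HNNExtension.of x) = 1
    simp [χ]
  have hχt : χ' t = Multiplicative.ofAdd 1 := by
    show χ HNNExtension.t = _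
    simp [χ]
  have hp3 : 3 ≤ p := by omega
  refine ⟨(HNNExtension (Q3 p) A Bs φ) ⧸ N, inferInstance, ι, t, ?_, ?_, ?_, ?_, ?_, ?_⟩
  · rw [injective_iff_map_eq_one]
    intro x hx
    have h2 : (HNNExtension.of x : HNNExtension (Q3 p) A Bs φ) ∈ N :=
      (QuotientGroup.eq_one_iff _).1 hx
    have h3 : P.len (HNNExtension.of x : HNNExtension (Q3 p) A Bs φ) = 0 := (hP0 _).2 ⟨x, rfl⟩
    have h4 := hlen (HNNExtension.of x)
    rw [h3] at h4
    have h5 := hNs _ (h4.trans (by norm_num)) h2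
    exact (map_eq_one_iff _ (HNNExtension.of_injective φ)).1 h5
  · intro g
    obtain ⟨g, rfl⟩ := QuotientGroup.mk_surjective g
    rw [← QuotientGroup.mk_pow, QuotientGroup.eq_one_iff]
    exact hNp g
  · have h := HNNExtension.equiv_eq_conj (φ := φ) (⟨gen p 0, h0⟩ : A)
    rw [e0] at h
    have := congrArg (QuotientGroup.mk' N) h
    rw [map_mul, map_mul, map_inv] at this
    exact this
  · have h := HNNExtension.equiv_eq_conj (φ := φ) (⟨gen p 1, h1⟩ : A)
    rw [e1] at h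
    have := congrArg (QuotientGroup.mk' N) h
    rw [map_mul, map_mul, map_inv] at this
    exact this
  · rintro ⟨x, hx⟩
    have h := hχι x
    rw [hx, hχt] at h
    have h' : (1 : ZMod p) = 0 := h
    have : Fact (1 < p) := ⟨by omega⟩
    exact one_ne_zero h'
  · rintro ⟨x, hx⟩
    have h := hχι x
    rw [hx, map_pow, hχt] at h
    have h' : (2 : ℕ) • (1 : ZMod p) = 0 := h
    rw [nsmul_eq_mul, mul_one] at h'
    have h'' := (ZMod.natCast_eq_zero_iff 2 p).1 h'
    have := Nat.le_of_dvd (by norm_num) h''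
    omega

end Pool.Agent.TH95.NR
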