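import Pool.Agent.TH95.NR.Defs
import Pool.Agent.TH54.BU.Iter
import Pool.Agent.TH54.BU.Step2

/-!
# Burnside type quotients of hyperbolic groups: iteration of `step2`
-/

set_option autoImplicit false

namespace Pool.Agent.TH95.NR

open Pool.Agent.TH54.BU

namespace J2

/-- a stage of the construction -/
structure Stg (Γ : Type) [Group Γ] (p K B T : ℕ) where
  M : Subgroup Γ
  hM : M.Normal
  le : M ≤ powSub Γ p
  tor : ∀ g : Γ ⧸ M, IsOfFinOrder g → g ^ p = 1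
  H : GH (Γ ⧸ M)
  hD : H.D = 4
  stab : H.Stab T
  acy : H.Acy K B

variable {Γ : Type} [Group Γ] {p K B T R0 : ℕ}

instance (s : Stg Γ p K B T) : s.M.Normal := s.hM

/-- the length of an element at a stage -/
def Stg.ln (s : Stg Γ p K B T) (g : Γ) : ℕ := s.H.len (g : Γ ⧸ s.M)

/-- the relation between successive stages -/
structure Nxt (s s' : Stg Γ p K B T) : Prop where
  leM : s.M ≤ s'.M
  len : ∀ g, s'.ln g ≤ (s.ln g + 1) / 2
  small : ∀ g, s.ln g ≤ 4 → g ∈ s'.M → g ∈ s.M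
  kill : ∀ g, s.ln g ≤ 1 → ∃ m : ℕ, 0 < m ∧ g ^ m ∈ s'.M

theorem exists_next
    (hstep : ∀ (ε : ℤ) (A G : Type) [Group A] [Group G] (φ : A →* G),
    Function.Surjective φ → ∀ z : A, (∀ a, a * z = z * a) → φ.ker = Subgroup.zpowers z →
    (∀ a : A, IsOfFinOrder (φ a) → ∃ k : ℤ, a ^ p = z ^ k) →
    ∀ H : GH G, H.D = 4 → H.Stab T → H.Acy K B →
    ∃ (N : Subgroup A) (_ : N.Normal) (M : Subgroup G) (_ : M.Normal),
      StepD φ z ε p K B T R0 H N M) (s : Stg Γ p K B T) : ∃ s' : Stg Γ p K B T, Nxt s s' := by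
  have hMn := s.hM
  let A0 := (Γ ⧸ s.M) × Multiplicative ℤ
  let φ : A0 →* (Γ ⧸ s.M) := MonoidHom.fst _ _
  let z0 : A0 := (1, Multiplicative.ofAdd 1)
  have hz0 : ∀ k : ℤ, z0 ^ k = (1, Multiplicative.ofAdd k) := by
    intro k
    apply Prod.ext
    · show (1 : Γ ⧸ s.M) ^ k = 1
      exact one_zpow k
    · show (Multiplicative.ofAdd (1 : ℤ)) ^ k = Multiplicative.ofAdd k
      rw [← ofAdd_zsmul]
      simp
  have hφ : Function.Surjective φ := fun g => ⟨(g, 1), rfl⟩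
  have hz : ∀ a : A0, a * z0 = z0 * a := by
    intro a
    apply Prod.ext
    · show a.1 * 1 = 1 * a.1
      rw [mul_one, one_mul]
    · exact mul_comm _ _
  have hker : φ.ker = Subgroup.zpowers z0 := by
    ext a
    constructor
    · intro h
      have h1 : a.1 = 1 := h
      refine ⟨Multiplicative.toAdd a.2, ?_⟩
      show z0 ^ (Multiplicative.toAdd a.2) = a
      rw [hz0]
      exact Prod.ext h1.symm rfl
    · rintro ⟨k, rfl⟩
      show φ (z0 ^ k) = 1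
      rw [hz0]
      rfl
  have htz : ∀ a : A0, IsOfFinOrder (φ a) → ∃ k : ℤ, a ^ p = z0 ^ k := by
    intro a ha
    refine ⟨Multiplicative.toAdd (a.2 ^ p), ?_⟩
    rw [hz0]
    apply Prod.ext
    · show a.1 ^ p = 1
      exact s.tor a.1 ha
    · rfl
  obtain ⟨N1, hN1, M1, hM1, S⟩ := hstep 0 A0 (Γ ⧸ s.M) φ hφ z0 hz hker htz s.H s.hD s.stab s.acy
  obtain ⟨F, hFD, hFS, hFA, hFlen, -⟩ := S.len
  -- torsion of the new quotient
  have htor1 : ∀ q : (Γ ⧸ s.M) ⧸ M1, IsOfFinOrder q → q ^ p = 1 := by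
    intro q hq
    obtain ⟨g, rfl⟩ := QuotientGroup.mk_surjective q
    obtain ⟨k, hk⟩ := S.tz (g, 1) hq
    rw [← QuotientGroup.mk_pow, QuotientGroup.eq_one_iff, ← S.map]
    refine ⟨_, hk, ?_⟩
    rw [map_mul, map_pow, hz0]
    exact mul_one _
  -- the new subgroup
  let M' : Subgroup Γ := M1.comap (QuotientGroup.mk' s.M)
  have hM'n : M'.Normal := hM1.comap _
  have memM : ∀ g : Γ, g ∈ M' ↔ (g : Γ ⧸ s.M) ∈ M1 := fun g => Iff.rfl
  let ψ : Γ →* (Γ ⧸ s.M) ⧸ M1 := (QuotientGroup.mk' M1).comp (QuotientGroup.mk' s.M)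
  have hψker : ∀ g, ψ g = 1 ↔ g ∈ M' := by
    intro g
    show (((g : Γ ⧸ s.M) : (Γ ⧸ s.M)) : (Γ ⧸ s.M) ⧸ M1) = 1 ↔ _
    rw [QuotientGroup.eq_one_iff, memM]
  let e0 : Γ ⧸ M' →* (Γ ⧸ s.M) ⧸ M1 := QuotientGroup.lift M' ψ (fun g hg => (hψker g).2 hg)
  have he0 : Function.Bijective e0 := by
    constructor
    · rw [injective_iff_map_eq_one]
      intro g hg
      obtain ⟨g, rfl⟩ := QuotientGroup.mk_surjective g
      exact (QuotientGroup.eq_one_iff _).2 ((hψker g).1 hg)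
    · intro g
      obtain ⟨g, rfl⟩ := QuotientGroup.mk_surjective g
      obtain ⟨g, rfl⟩ := QuotientGroup.mk_surjective g
      exact ⟨(g : Γ ⧸ M'), rfl⟩
  let e : Γ ⧸ M' ≃* (Γ ⧸ s.M) ⧸ M1 := MulEquiv.ofBijective e0 he0
  have finM : ∀ g : Γ, (∃ m : ℕ, 0 < m ∧ g ^ m ∈ M') ↔
      IsOfFinOrder ((g : Γ ⧸ s.M) : (Γ ⧸ s.M) ⧸ M1) := by
    intro g
    rw [fin_mk]
    constructor
    · rintro ⟨m, hm, h⟩
      exact ⟨m, hm, by rw [← QuotientGroup.mk_pow]; exact h⟩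
    · rintro ⟨m, hm, h⟩
      refine ⟨m, hm, ?_⟩
      rw [memM, QuotientGroup.mk_pow]
      exact h
  refine ⟨⟨M', hM'n, ?_, ?_, F.comapE e, hFD, F.comapE_stab e hFS, F.comapE_acy e hFA⟩, ?_⟩
  · intro g hg
    have h1 := S.le ((memM g).1 hg)
    have h2 : powSub (Γ ⧸ s.M) p ≤ (powSub Γ p).map (QuotientGroup.mk' s.M) := by
      unfold powSub
      rw [Subgroup.map_normalClosure _ _ (QuotientGroup.mk'_surjective s.M)]
      apply Subgroup.normalClosure_mono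
      rintro _ ⟨x, rfl⟩
      obtain ⟨x, rfl⟩ := QuotientGroup.mk_surjective x
      exact ⟨x ^ p, ⟨x, rfl⟩, rfl⟩
    obtain ⟨w, hw, hwg⟩ := h2 h1
    have h3 : (w : Γ ⧸ s.M) = g := hwg
    have h4 := s.le (QuotientGroup.eq.1 h3)
    have := (powSub Γ p).mul_mem hw h4
    rwa [mul_inv_cancel_left] at this
  · intro q hq
    have h1 := htor1 (e q) ((isOfFinOrder_equiv e q).2 hq)
    rw [← map_pow] at h1
    exact (map_eq_one_iff e e.injective).1 h1
  · refine ⟨?_, ?_, ?_, ?_⟩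
    · intro a ha
      show ((a : Γ) : Γ ⧸ s.M) ∈ M1
      rw [(QuotientGroup.eq_one_iff a).2 ha]
      exact M1.one_mem
    · intro g
      exact hFlen (g : Γ ⧸ s.M)
    · intro g h1 h2
      exact (QuotientGroup.eq_one_iff g).1 (S.small (g : Γ ⧸ s.M) h1 h2)
    · intro g h1
      exact (finM g).2 (S.kill (g : Γ ⧸ s.M) h1)

end J2

open J2 in
theorem bquot : ∃ K B T : ℕ, 500 ≤ K ∧ 8 * K + 20 ≤ B ∧ 1 ≤ T ∧ ∃ p0 : ℕ, ∀ p : ℕ, p.Prime →
    p0 ≤ p → ∀ (Γ : Type) [Group Γ] (H : GH Γ), H.D = 4 → H.Stab T → H.Acy K B →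
    (∀ g : Γ, IsOfFinOrder g → g ^ p = 1) →
    ∃ (N : Subgroup Γ) (_ : N.Normal), (∀ g : Γ, g ^ p ∈ N) ∧ N ≤ powSub Γ p ∧
      ∀ g : Γ, H.len g ≤ 4 → g ∈ N → g = 1 := by
  obtain ⟨K, B, T, R0, hK, hB, hT, _, p0, hstep⟩ := step2
  refine ⟨K, B, T, hK, hB, hT, p0, ?_⟩
  intro p hp hpp Γ _ H hHD hHS hHA htor
  have hst := hstep p hp hpp
  -- the first stage
  let e0 : Γ ⧸ (⊥ : Subgroup Γ) ≃* Γ := QuotientGroup.quotientBot
  let s0 : Stg Γ p K B T :=
    { M := ⊥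
      hM := inferInstance
      le := bot_le
      tor := by
        intro g hg
        have h1 := htor (e0 g) ((isOfFinOrder_equiv e0 g).2 hg)
        rw [← map_pow] at h1
        exact (map_eq_one_iff e0 e0.injective).1 h1
      H := H.comapE e0
      hD := hHD
      stab := H.comapE_stab e0 hHS
      acy := H.comapE_acy e0 hHA }
  have hnext := exists_next (Γ := Γ) (K := K) (B := B) (T := T) (p := p) (R0 := R0)
    (fun ε A G _ _ φ h1 z h2 h3 h4 H h5 h6 h7 => hst ε A G φ h1 z h2 h3 h4 H h5 h6 h7)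
  choose nx hnx using hnext
  let s : ℕ → Stg Γ p K B T := fun n => nx^[n] s0
  have hs : ∀ n, Nxt (s n) (s (n + 1)) := by
    intro n
    have : s (n + 1) = nx (s n) := Function.iterate_succ_apply' nx n s0
    rw [this]
    exact hnx _
  have hMmono : Monotone fun n => (s n).M := monotone_nat_of_le_succ fun n => (hs n).leM
  -- lengths decrease
  have hdec : ∀ g : Γ, ∀ k n : ℕ, (s n).ln g ≤ k + 1 → ∃ n', (s n').ln g ≤ 1 := by
    intro g k
    induction k with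
    | zero => exact fun n h => ⟨n, h⟩
    | succ k ih =>
      intro n h
      have := (hs n).len g
      exact ih (n + 1) (by omega)
  have htors : ∀ g : Γ, ∃ n, ∃ m : ℕ, 0 < m ∧ g ^ m ∈ (s n).M := by
    intro g
    obtain ⟨n, hn⟩ := hdec g ((s 0).ln g) 0 (by omega)
    exact ⟨n + 1, (hs n).kill g hn⟩
  have hpow : ∀ g : Γ, ∃ n, g ^ p ∈ (s n).M := by
    intro g
    obtain ⟨n, hn⟩ := htors g
    refine ⟨n, ?_⟩
    have h1 := (s n).tor (g : Γ ⧸ (s n).M) ((fin_mk _ g).2 hn)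
    rwa [← QuotientGroup.mk_pow, QuotientGroup.eq_one_iff] at h1
  let Minf : Subgroup Γ := ⨆ n, (s n).M
  have memM : ∀ g : Γ, g ∈ Minf ↔ ∃ n, g ∈ (s n).M := fun g =>
    Subgroup.mem_iSup_of_directed hMmono.directed_le
  have hMn : Minf.Normal := by
    constructor
    intro a ha g
    obtain ⟨n, hn⟩ := (memM a).1 ha
    exact (memM _).2 ⟨n, (s n).hM.conj_mem a hn g⟩
  refine ⟨Minf, hMn, fun g => (memM _).2 (hpow g), iSup_le fun n => (s n).le, ?_⟩
  intro g hg hgM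
  obtain ⟨n, hn⟩ := (memM g).1 hgM
  have hln : ∀ n, (s n).ln g ≤ 4 := by
    intro n
    induction n with
    | zero =>
      show H.len (e0 (g : Γ ⧸ (⊥ : Subgroup Γ))) ≤ 4
      have : e0 (g : Γ ⧸ (⊥ : Subgroup Γ)) = g := rfl
      rw [this]
      exact hg
    | succ n ih =>
      have := (hs n).len g
      omega
  by_contra hne
  have hall : ∀ n, g ∉ (s n).M := by
    intro n
    induction n with
    | zero =>
      intro h0
      exact hne (Subgroup.mem_bot.1 h0)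
    | succ n ih => exact fun h1 => ih ((hs n).small g (hln n) h1)
  exact hall n hn

end Pool.Agent.TH95.NR
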